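import Pool.Agent.N514.NB.Levi

/-!
# A criterion for plurisubharmonicity
-/

set_option autoImplicit false

open scoped Manifold ContDiff Topology ComplexConjugate
open Set Filter

namespace Pool.Agent.N514.NB

/-- second derivative at a local maximum. -/
theorem second_le {h h' : ℝ → ℝ} {a : ℝ} (h1 : ∀ᶠ t in 𝓝 (0 : ℝ), HasDerivAt h (h' t) t)
    (h2 : HasDerivAt h' a 0) (hm : IsLocalMax h 0) : a ≤ 0 := by
  by_contra hcon
  push Not at hcon
  have e1 : deriv h =ᶠ[𝓝 0] h' := by
    filter_upwards [h1] with t ht using ht.deriv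
  have e2 : deriv (deriv h) 0 = a := by rw [e1.deriv_eq, h2.deriv]
  have e3 : deriv h 0 = 0 := hm.deriv_eq_zero
  have e4 : IsLocalMin h 0 := isLocalMin_of_deriv_deriv_pos (by rw [e2]; exact hcon) e3
    h1.self_of_nhds.continuousAt
  have e5 : h =ᶠ[𝓝 0] fun _ => h 0 := by
    filter_upwards [hm, e4] with t ht1 ht2 using le_antisymm ht1 ht2
  have e6 : deriv h =ᶠ[𝓝 0] fun _ => 0 := by
    have := e5.deriv
    filter_upwards [this] with t ht
    rw [ht]
    simp
  rw [e6.deriv_eq] at e2
  simp at e2
  linarith

/-- The local structure of the functions which we consider. -/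
def Loc (u : C2 → EReal) (z : C2) : Prop :=
  (∃ f : C2 → ℝ, (∀ᶠ q in 𝓝 z, u q = ((f q : ℝ) : EReal)) ∧ ContDiffAt ℝ ∞ f z ∧
    ∀ v, 0 ≤ leviForm f z v) ∨ (u z = ⊥ ∧ ∀ b : ℝ, ∀ᶠ q in 𝓝 z, u q < ((b : ℝ) : EReal))

theorem Loc.ne_top {u : C2 → EReal} {z : C2} (h : Loc u z) : u z ≠ ⊤ := by
  rcases h with ⟨f, h1, -, -⟩ | ⟨h1, -⟩
  · rw [h1.self_of_nhds]
    exact EReal.coe_ne_top _
  · rw [h1]
    exact bot_ne_top

/-- semicontinuity of the sum with a continuous real function, along a continuous map. -/
theorem Loc.usc {u : C2 → EReal} {X : Type} [TopologicalSpace X] {s : X → C2} {x : X}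
    (h : Loc u (s x)) (hs : ContinuousAt s x) {g : X → ℝ} (hg : ContinuousAt g x) {y : EReal}
    (hy : u (s x) + ((g x : ℝ) : EReal) < y) : ∀ᶠ x' in 𝓝 x, u (s x') + ((g x' : ℝ) : EReal) < y := by
  rcases h with ⟨f, h1, h2, -⟩ | ⟨h1, h2⟩
  · have e := hs.eventually h1
    have e0 := e.self_of_nhds
    rw [e0, ← EReal.coe_add] at hy
    have c : ContinuousAt (fun x' => ((f (s x') + g x' : ℝ) : EReal)) x :=
      continuous_coe_real_ereal.continuousAt.comp
        ((ContinuousAt.comp (g := f) h2.continuousAt hs).add hg)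
    filter_upwards [e, c.eventually_lt continuousAt_const hy] with x' hx1 hx2
    rw [hx1, ← EReal.coe_add]
    exact hx2
  · have hbot : ⊥ < y := lt_of_le_of_lt bot_le hy
    obtain ⟨b, -, hb⟩ := EReal.lt_iff_exists_real_btwn.1 hbot
    have c1 : ∀ᶠ x' in 𝓝 x, g x' < g x + 1 :=
      hg.eventually_lt continuousAt_const (by linarith)
    filter_upwards [hs.eventually (h2 (b - g x - 1)), c1] with x' hx1 hx2
    refine lt_of_lt_of_le ?_ hb.le
    have h3 : u (s x') + ((g x' : ℝ) : EReal) <
        ((b - g x - 1 : ℝ) : EReal) + ((g x + 1 : ℝ) : EReal) :=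
      EReal.add_lt_add hx1 (by exact_mod_cast hx2)
    rw [← EReal.coe_add] at h3
    have e : b - g x - 1 + (g x + 1) = b := by ring
    rwa [e] at h3

/-- **The criterion.** -/
theorem isPSH_of {u : C2 → EReal} {Ω : Set C2} (hu : ∀ z ∈ Ω, Loc u z) : IsPSH u Ω := by
  refine ⟨?_, fun z hz => (hu z hz).ne_top, ?_⟩
  · intro z hz y hy
    have := (hu z hz).usc (s := id) (x := z) continuousAt_id (g := fun _ => 0) continuousAt_const
      (y := y) (by simpa using hy)
    refine Filter.Eventually.filter_mono nhdsWithin_le_nhds ?_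
    simpa using this
  · intro z v hdisc P hP
    by_contra hcon
    push Not at hcon
    have hz : z ∈ Ω := by simpa using hdisc 0 (by simp)
    -- a real number between
    obtain ⟨a, ha1, ha2⟩ := EReal.lt_iff_exists_real_btwn.1 hcon
    have ha1' : (P.eval 0).re < a := by exact_mod_cast ha1
    set ε : ℝ := (a - (P.eval 0).re) / 2 with hε
    have hε0 : 0 < ε := by rw [hε]; linarith
    set g : ℂ → ℝ := fun ζ => -(P.eval ζ).re + ε * Complex.normSq ζ with hg
    have hgc : Continuous g := by
      rw [hg]
      exact (Complex.continuous_re.comp P.continuous).neg.add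
        (continuous_const.mul Complex.continuous_normSq)
    set s : ℂ → C2 := fun ζ => z + ζ • v with hs
    have hsc : Continuous s := by
      rw [hs]
      exact continuous_const.add (continuous_id.smul continuous_const)
    set w : ℂ → EReal := fun ζ => u (s ζ) + ((g ζ : ℝ) : EReal) with hw
    have husc : UpperSemicontinuousOn w (Metric.closedBall 0 1) := by
      intro ζ hζ y hy
      have h1 : ‖ζ‖ ≤ 1 := by simpa using hζ
      exact Filter.Eventually.filter_mono nhdsWithin_le_nhds
        ((hu (s ζ) (hdisc ζ h1)).usc hsc.continuousAt hgc.continuousAt hy)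
    obtain ⟨ζ₀, hζ₀, hmax⟩ := UpperSemicontinuousOn.exists_isMaxOn (s := Metric.closedBall (0 : ℂ) 1)
      ⟨0, by simp⟩ (isCompact_closedBall _ _) husc
    have hζ₀' : ‖ζ₀‖ ≤ 1 := by simpa using hζ₀
    -- the value at the centre
    have hw0 : ((2 * ε : ℝ) : EReal) < w 0 := by
      have e1 : w 0 = u z + ((-(P.eval 0).re : ℝ) : EReal) := by
        rw [hw]
        simp [hs, hg]
      rw [e1]
      have h3 : ((a : ℝ) : EReal) + ((-(P.eval 0).re : ℝ) : EReal) <
          u z + ((-(P.eval 0).re : ℝ) : EReal) :=
        EReal.add_lt_add_right_coe ha2 _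
      rw [← EReal.coe_add] at h3
      have e : a + -(P.eval 0).re = 2 * ε := by rw [hε]; ring
      rwa [e] at h3
    have hmax0 : w 0 ≤ w ζ₀ := hmax (by simp)
    -- not on the boundary
    have hlt : ‖ζ₀‖ < 1 := by
      rcases lt_or_eq_of_le hζ₀' with h | h
      · exact h
      · exfalso
        have h1 := hP ζ₀ h
        have h2 : w ζ₀ ≤ ((ε : ℝ) : EReal) := by
          have h3 : w ζ₀ ≤ (((P.eval ζ₀).re : ℝ) : EReal) + ((g ζ₀ : ℝ) : EReal) :=
            add_le_add h1 le_rfl
          rw [← EReal.coe_add] at h3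
          have e : (P.eval ζ₀).re + g ζ₀ = ε := by
            rw [hg]
            simp only [Complex.normSq_eq_norm_sq, h]
            ring
          rwa [e] at h3
        have h4 : ((2 * ε : ℝ) : EReal) < ((ε : ℝ) : EReal) := lt_of_lt_of_le hw0 (hmax0.trans h2)
        have h5 : 2 * ε < ε := by exact_mod_cast h4
        linarith
    have hbot : u (s ζ₀) ≠ ⊥ := by
      intro h
      have h1 : w ζ₀ = ⊥ := by
        change u (s ζ₀) + ((g ζ₀ : ℝ) : EReal) = ⊥
        rw [h]
        exact EReal.bot_add _
      rw [h1] at hmax0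
      exact absurd (lt_of_lt_of_le hw0 hmax0) (not_lt_bot)
    rcases hu (s ζ₀) (hdisc ζ₀ hζ₀') with ⟨f, hf1, hf2, hf3⟩ | ⟨h1, -⟩
    · -- the real function has a local maximum
      have hloc : ∀ᶠ ζ in 𝓝 ζ₀, f (s ζ) + g ζ ≤ f (s ζ₀) + g ζ₀ := by
        have c1 : ∀ᶠ ζ in 𝓝 ζ₀, ζ ∈ Metric.closedBall (0 : ℂ) 1 := by
          have : Metric.ball (0 : ℂ) 1 ∈ 𝓝 ζ₀ := Metric.isOpen_ball.mem_nhds (by simpa using hlt)
          filter_upwards [this] with ζ hζ using Metric.ball_subset_closedBall hζ
        have c2 := (hsc.continuousAt (x := ζ₀)).eventually hf1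
        have c3 := c2.self_of_nhds
        filter_upwards [c1, c2] with ζ h1 h2
        have h4 : w ζ ≤ w ζ₀ := hmax h1
        change u (s ζ) + ((g ζ : ℝ) : EReal) ≤ u (s ζ₀) + ((g ζ₀ : ℝ) : EReal) at h4
        rw [h2, c3, ← EReal.coe_add, ← EReal.coe_add] at h4
        exact_mod_cast h4
      -- derivative along a direction
      have main : ∀ (c : ℂ), ∃ a : ℝ, a = fderiv ℝ (fun w => fderiv ℝ f w (c • v)) (s ζ₀) (c • v) -
          ((P.derivative.derivative.eval ζ₀) * c * c).re + ε * (2 * Complex.normSq c) ∧ a ≤ 0 := by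
        intro c
        refine ⟨_, rfl, ?_⟩
        let L : ℝ → ℂ := fun t => ζ₀ + (t : ℂ) * c
        have hL : ∀ t, HasDerivAt L c t := fun t => by
          have h := ((Complex.ofRealCLM.hasDerivAt (x := t)).mul_const c).const_add ζ₀
          exact h.congr_deriv (by simp)
        have hL0 : L 0 = ζ₀ := by simp [L]
        have hLc : ContinuousAt L 0 := (hL 0).continuousAt
        have hsL : ∀ t, HasDerivAt (fun t => s (L t)) (c • v) t := fun t => by
          have := (hL t).smul_const v
          exact this.const_add z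
        have hsLc : ContinuousAt (fun t => s (L t)) 0 := (hsL 0).continuousAt
        have hsL0 : s (L 0) = s ζ₀ := by rw [hL0]
        have cf : ∀ᶠ q in 𝓝 (s ζ₀), DifferentiableAt ℝ f q := by
          have := (hf2.of_le (m := 1) (by norm_cast)).eventually (by simp)
          filter_upwards [this] with q hq using hq.differentiableAt (by simp)
        have cf' : ∀ᶠ t in 𝓝 (0 : ℝ), DifferentiableAt ℝ f (s (L t)) := by
          have := hsLc.eventually (p := fun q => DifferentiableAt ℝ f q)
            (by change ∀ᶠ q in 𝓝 (s (L 0)), DifferentiableAt ℝ f q; rw [hsL0]; exact cf)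
          exact this
        have dP : ∀ (Q : Polynomial ℂ) (t : ℝ), HasDerivAt (fun t => Q.eval (L t))
            (Q.derivative.eval (L t) * c) t := fun Q t => by
          exact (Q.hasDerivAt (L t)).comp t (hL t)
        have dre : ∀ {F : ℝ → ℂ} {F' : ℂ} {t : ℝ}, HasDerivAt F F' t →
            HasDerivAt (fun t => (F t).re) F'.re t := fun h =>
          Complex.reCLM.hasFDerivAt.comp_hasDerivAt _ h
        have dim : ∀ {F : ℝ → ℂ} {F' : ℂ} {t : ℝ}, HasDerivAt F F' t →
            HasDerivAt (fun t => (F t).im) F'.im t := fun h =>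
          Complex.imCLM.hasFDerivAt.comp_hasDerivAt _ h
        have dN : ∀ t, HasDerivAt (fun t => Complex.normSq (L t))
            (2 * ((L t).re * c.re + (L t).im * c.im)) t := fun t => by
          have h1 := (dre (hL t)).mul (dre (hL t))
          have h2 := (dim (hL t)).mul (dim (hL t))
          have h3 := h1.add h2
          have e : (fun t => Complex.normSq (L t)) = fun t => (L t).re * (L t).re +
            (L t).im * (L t).im := by funext t; exact Complex.normSq_apply _
          rw [e]
          exact h3.congr_deriv (by ring)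
        apply second_le (h := fun t => f (s (L t)) + g (L t))
          (h' := fun t => fderiv ℝ f (s (L t)) (c • v) + (-(P.derivative.eval (L t) * c).re +
            ε * (2 * ((L t).re * c.re + (L t).im * c.im))))
        · filter_upwards [cf'] with t ht
          have h1 : HasDerivAt (fun t => f (s (L t))) (fderiv ℝ f (s (L t)) (c • v)) t :=
            ht.hasFDerivAt.comp_hasDerivAt t (hsL t)
          have h2 : HasDerivAt (fun t => g (L t)) (-(P.derivative.eval (L t) * c).re +
              ε * (2 * ((L t).re * c.re + (L t).im * c.im))) t :=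
            (dre (dP P t)).neg.add ((dN t).const_mul ε)
          exact h1.add h2
        · have h1 : DifferentiableAt ℝ (fun w => fderiv ℝ f w (c • v)) (s (L 0)) := by
            rw [hsL0]
            have : DifferentiableAt ℝ (fderiv ℝ f) (s ζ₀) :=
              (hf2.fderiv_right (m := 1) (by norm_cast)).differentiableAt (by simp)
            exact this.clm_apply (differentiableAt_const _)
          have h2 : HasDerivAt (fun t => fderiv ℝ f (s (L t)) (c • v))
              (fderiv ℝ (fun w => fderiv ℝ f w (c • v)) (s (L 0)) (c • v)) 0 :=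
            HasFDerivAt.comp_hasDerivAt (0 : ℝ) (l := fun w => fderiv ℝ f w (c • v))
              (f := fun t => s (L t)) h1.hasFDerivAt (hsL 0)
          have h3 : HasDerivAt (fun t => -(P.derivative.eval (L t) * c).re)
              (-(P.derivative.derivative.eval (L 0) * c * c).re) 0 :=
            (dre ((dP P.derivative 0).mul_const c)).neg
          have h4 : HasDerivAt (fun t => ε * (2 * ((L t).re * c.re + (L t).im * c.im)))
              (ε * (2 * (c.re * c.re + c.im * c.im))) 0 :=
            ((((dre (hL 0)).mul_const c.re).add ((dim (hL 0)).mul_const c.im)).const_mul 2).const_mul ε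
          have h5 := h2.add (h3.add h4)
          rw [hsL0, hL0] at h5
          exact h5.congr_deriv (by rw [Complex.normSq_apply]; ring)
        · have h1 : ∀ᶠ t in 𝓝 (0 : ℝ), f (s (L t)) + g (L t) ≤ f (s ζ₀) + g ζ₀ := by
            have := hLc.eventually (p := fun ζ => f (s ζ) + g ζ ≤ f (s ζ₀) + g ζ₀)
              (by rw [hL0]; exact hloc)
            exact this
          filter_upwards [h1] with t ht
          rw [hL0]
          exact ht
      obtain ⟨a1, ha1, hb1⟩ := main 1
      obtain ⟨a2, ha2, hb2⟩ := main Complex.I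
      have h6 := hf3 v
      unfold leviForm at h6
      rw [one_smul] at ha1
      have e1 : ((P.derivative.derivative.eval ζ₀) * 1 * 1).re =
        (P.derivative.derivative.eval ζ₀).re := by ring_nf
      have e2 : ((P.derivative.derivative.eval ζ₀) * Complex.I * Complex.I).re =
          -(P.derivative.derivative.eval ζ₀).re := by
        rw [mul_assoc, Complex.I_mul_I]
        simp
      rw [e1] at ha1
      rw [e2] at ha2
      have e3 : Complex.normSq 1 = 1 := by simp
      have e4 : Complex.normSq Complex.I = 1 := by simp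
      rw [e3] at ha1
      rw [e4] at ha2
      linarith
    · exact hbot h1

end Pool.Agent.N514.NB
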