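import Pool.Agent.N514.NB.Desc
import Pool.Agent.N514.NB.Psh

/-!
# The class is big
-/

set_option autoImplicit false

open scoped Manifold ContDiff Topology ComplexConjugate MatrixGroups UpperHalfPlane
open Set Filter

namespace Pool.Agent.N514.NB

open Pool.Agent.W711.KC (CG CG_far ex ex_apply ex_mem HolGroup QQ pr pr_surj continuous_pr
  pr_eq_iff pr_smul chart_self_mem pr_chart_self atlas_target atlas_symm chart_mem pr_chart
  deck deck_symm local_pr local_pr')

theorem Loc.congr {u u' : C2 → EReal} {z : C2} (h : Loc u' z) (e : u =ᶠ[𝓝 z] u') : Loc u z := by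
  rcases h with ⟨f, h1, h2, h3⟩ | ⟨h1, h2⟩
  · left
    refine ⟨f, ?_, h2, h3⟩
    filter_upwards [e, h1] with q hq1 hq2
    rw [hq1, hq2]
  · right
    refine ⟨by rw [e.self_of_nhds, h1], fun b => ?_⟩
    filter_upwards [e, h2 b] with q hq1 hq2
    rw [hq1]
    exact hq2

/-- the local potentials on the quotient. -/
theorem local_form {Q : C2 → C2 → ℝ} (hQ : InvQ Q) (x₀ : XX) {Ψ : C2 → ℝ} {W : Set C2}
    (hW : ∀ q ∈ W, ContDiffAt ℝ ∞ Ψ q ∧ ∀ v, Q q v = leviForm Ψ q v) :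
    ∀ x ∈ (chartAt C2 x₀).source ∩ chartAt C2 x₀ ⁻¹' W,
      ContMDiffAt 𝓘(ℝ, C2) 𝓘(ℝ, ℝ) ∞ (fun y => Ψ (chartAt C2 x₀ y)) x ∧
      ∀ v, dQ Q x v = levi (fun y => Ψ (chartAt C2 x₀ y)) x v := by
  rintro x ⟨hx1, hx2⟩
  have hp := chart_self_mem x
  obtain ⟨γ, hγ, h1, h2⟩ := deck_symm (chart_mem_atlas C2 x) (chart_mem_atlas C2 x₀)
    ((chartAt C2 x).map_source (mem_chart_source C2 x))
    (by rw [(chartAt C2 x).left_inv (mem_chart_source C2 x)]; exact hx1)
  rw [(chartAt C2 x).left_inv (mem_chart_source C2 x)] at h1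
  refine ⟨?_, fun v => ?_⟩
  · exact contMDiffAt_of x₀ hx1 (hW _ hx2).1 (Eventually.of_forall fun y => rfl)
  · have e : ((fun y => Ψ (chartAt C2 x₀ y)) ∘ (chartAt C2 x).symm) =ᶠ[𝓝 (chartAt C2 x x)]
        Ψ ∘ ex γ := by
      filter_upwards [h2] with z hz
      simp only [Function.comp_apply]
      rw [hz]
    have hh : ContDiffAt ℂ ω (ex (γ : Up → Up)) (chartAt C2 x x) :=
      (HolGroup.hol γ hγ).contDiffAt (Up.isOpen.mem_nhds hp)
    have hm : ex γ (chartAt C2 x x) ∈ W := by rw [h1]; exact hx2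
    have key : ∀ v : C2, Q (chartAt C2 x x) v =
        leviForm ((fun y => Ψ (chartAt C2 x₀ y)) ∘ (chartAt C2 x).symm) (chartAt C2 x x) v := by
      intro v
      rw [leviForm_congr e, leviForm_comp hh (hW _ hm).1, ← (hW _ hm).2]
      exact (hQ.ex hγ hp v).symm
    exact key v

/-- **A criterion for bigness.** -/
theorem isBig_of {Q K : C2 → C2 → ℝ} (hQ : InvQ Q) (hK : InvQ K) {H : C2 → EReal} (hH : InvF H)
    (hex : ∃ p ∈ Up, H p ≠ ⊥)
    (hloc : ∀ p ∈ Up, ∃ Ψ : C2 → ℝ, ∀ᶠ q in 𝓝 p, (ContDiffAt ℝ ∞ Ψ q ∧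
      ∀ v, Q q v - K q v = leviForm Ψ q v) ∧ Loc (fun z => ((Ψ z : ℝ) : EReal) + H z) q) :
    IsBig (dQ K) (dQ Q) := by
  refine ⟨1, one_pos, dF H, ?_, fun x₀ => ?_⟩
  · obtain ⟨p, hp, hp1⟩ := hex
    refine ⟨pr GG ⟨p, hp⟩, ?_⟩
    intro hcon
    apply hp1
    obtain ⟨γ, hγ, h⟩ := pr_eq_iff.1 (pr_chart_self (pr GG ⟨p, hp⟩))
    have h1 : dF H (pr GG ⟨p, hp⟩) = H p := by
      unfold dF
      rw [← hH.ex hγ (chart_self_mem (pr GG ⟨p, hp⟩))]
      congr 1
      have h2 := ex_apply (γ : Up → Up) ⟨chartAt C2 (pr GG ⟨p, hp⟩) (pr GG ⟨p, hp⟩), chart_self_mem _⟩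
      have h3 : ((γ ⟨chartAt C2 (pr GG ⟨p, hp⟩) (pr GG ⟨p, hp⟩), chart_self_mem _⟩ : Up) : C2) = p := by
        rw [h]
      exact h2.trans h3
    rw [← h1, hcon]
  · obtain ⟨Ψ, hΨ⟩ := hloc (chartAt C2 x₀ x₀) (chart_self_mem x₀)
    obtain ⟨W, hW, hWo, hpW⟩ := eventually_nhds_iff.1 hΨ
    have hQK : InvQ (fun q v => Q q v - K q v) := by
      intro g hg h hh p hp v
      change Q _ _ - K _ _ = _
      rw [hQ g hg h hh p hp, hK g hg h hh p hp]
    refine ⟨(chartAt C2 x₀).source ∩ chartAt C2 x₀ ⁻¹' W, (chartAt C2 x₀).isOpen_inter_preimage hWo,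
      ⟨mem_chart_source C2 x₀, hpW⟩, inter_subset_left, fun y => Ψ (chartAt C2 x₀ y),
      fun x hx => ?_, ?_⟩
    · obtain ⟨h1, h2⟩ := local_form hQK x₀ (fun q hq => (hW q hq).1) x hx
      refine ⟨h1, fun v => ?_⟩
      rw [← h2 v, one_mul]
      rfl
    · apply isPSH_of
      rintro _ ⟨x, ⟨hx1, hx2⟩, rfl⟩
      refine (hW _ hx2).2.congr ?_
      filter_upwards [(chartAt C2 x₀).open_target.mem_nhds ((chartAt C2 x₀).map_source hx1)] with z hz
      rw [(chartAt C2 x₀).right_inv hz, dF_symm hH x₀ hz]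

open Classical in
/-- the singular potential. -/
noncomputable def Hs (t : ℝ) : EReal :=
  if t = 0 then ⊥ else ((2 * Real.log t - FF e0 t : ℝ) : EReal)

theorem Hs_zero {t : ℝ} (ht : e0 < t) : Hs t = 0 := by
  unfold Hs
  rw [if_neg (e0_pos.trans ht).ne', FF_of_le e0_pos ht.le, sub_self]
  rfl

/-- potential of `θ - κ` near the graphs. -/
noncomputable def potK (γ : SL(2, ℝ)) (p : C2) : ℝ :=
  pot e0 γ p + (Real.log (Y1 p) + Real.log (Y2 p))

noncomputable def potKB (p : C2) : ℝ := potB p + (Real.log (Y1 p) + Real.log (Y2 p))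

theorem potK_form {γ : SL(2, ℝ)} (hγ : γ ∈ CG) {p : C2} (hp : p ∈ Up) (h : uq γ p < k0) :
    ContDiffAt ℝ ∞ (potK γ) p ∧ ∀ v, Qf e0 p v - Qk p v = leviForm (potK γ) p v := by
  have c1 := contDiffAt_pot e0 γ hp
  have c2 := (contDiffAt_logY1 hp).add (contDiffAt_logY2 hp)
  refine ⟨c1.add c2, fun v => ?_⟩
  unfold potK
  rw [leviForm_add c1 c2, leviForm_add (contDiffAt_logY1 hp) (contDiffAt_logY2 hp),
    leviForm_logY1 hp, leviForm_logY2 hp, Qf_near e0_pos hγ hp h]
  unfold Qk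
  ring

theorem potKB_form {p : C2} (hp : p ∈ Up) (h : ∀ γ ∈ CG, e0 < uq γ p) :
    ContDiffAt ℝ ∞ potKB p ∧ ∀ v, Qf e0 p v - Qk p v = leviForm potKB p v := by
  have c1 := contDiffAt_potB hp
  have c2 := (contDiffAt_logY1 hp).add (contDiffAt_logY2 hp)
  refine ⟨c1.add c2, fun v => ?_⟩
  unfold potKB
  rw [leviForm_add c1 c2, leviForm_add (contDiffAt_logY1 hp) (contDiffAt_logY2 hp),
    leviForm_logY1 hp, leviForm_logY2 hp, Qf_far e0_pos le_rfl hp h]
  unfold Qk
  ring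

theorem Loc_near {γ : SL(2, ℝ)} {p : C2} (hp : p ∈ Up) :
    Loc (fun z => ((potK γ z : ℝ) : EReal) + Hs (uq γ z)) p := by
  have hcont : ContinuousAt (uq γ) p := (contDiffAt_uq γ hp).continuousAt
  by_cases h0 : uq γ p = 0
  · right
    refine ⟨?_, fun b => ?_⟩
    · simp only [Hs, if_pos h0]
      exact EReal.add_bot _
    · set c : ℝ := (b - 2 * (Real.log (Y2 p) + 1)) / 2 with hc
      have e1 : ∀ᶠ q in 𝓝 p, uq γ q < Real.exp c :=
        hcont.eventually_lt continuousAt_const (by rw [h0]; exact Real.exp_pos _)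
      have e2 : ∀ᶠ q in 𝓝 p, Real.log (Y2 q) < Real.log (Y2 p) + 1 :=
        (contDiffAt_logY2 hp).continuousAt.eventually_lt continuousAt_const (by linarith)
      filter_upwards [e1, e2, Up.isOpen.mem_nhds hp] with q h1 h2 hq
      by_cases h3 : uq γ q = 0
      · simp only [Hs, if_pos h3]
        rw [EReal.add_bot]
        exact EReal.bot_lt_coe _
      · simp only [Hs, if_neg h3]
        rw [← EReal.coe_add, EReal.coe_lt_coe_iff]
        have h4 : 0 < uq γ q := lt_of_le_of_ne (uu_nonneg (act_mem 1 γ hq)) (Ne.symm h3)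
        have h5 : Real.log (uq γ q) < c := (Real.log_lt_iff_lt_exp h4).2 h1
        have h6 : potK γ q + (2 * Real.log (uq γ q) - FF e0 (uq γ q)) =
            2 * Real.log (Y2 q) + 2 * Real.log (uq γ q) := by
          unfold potK pot
          ring
        rw [h6]
        rw [hc] at h5
        linarith
  · left
    have hpos : 0 < uq γ p := lt_of_le_of_ne (uu_nonneg (act_mem 1 γ hp)) (Ne.symm h0)
    set η : ℝ := uq γ p / 2 with hη
    have hη0 : 0 < η := by rw [hη]; linarith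
    have c1 := contDiffAt_const (c := (2 : ℝ)).mul (contDiffAt_logY2 hp)
    have c2 : ContDiffAt ℝ ∞ (fun q => FF η (uq γ q)) p :=
      (contDiff_FF η).contDiffAt.comp p (contDiffAt_uq γ hp)
    refine ⟨fun q => 2 * Real.log (Y2 q) + FF η (uq γ q), ?_, c1.add c2, fun v => ?_⟩
    · have e1 : ∀ᶠ q in 𝓝 p, η < uq γ q :=
        continuousAt_const.eventually_lt hcont (by rw [hη]; linarith)
      filter_upwards [e1] with q h1
      have h3 : uq γ q ≠ 0 := (hη0.trans h1).ne'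
      simp only [Hs, if_neg h3]
      rw [← EReal.coe_add, FF_of_le hη0 h1.le]
      congr 1
      unfold potK pot
      ring
    · have h1 : 1 ≤ uq γ p / η := by
        rw [le_div_iff₀ hη0, hη]
        linarith
      rw [leviForm_add c1 c2, leviForm_const_mul (contDiffAt_logY2 hp), leviForm_logY2 hp,
        leviForm_F_uq (contDiff_FF η) γ hp, mul_deriv_FF hη0, deriv_FF_add hη0,
        SS_of_one_le h1]
      have h2 : 0 ≤ 2 * deriv SS (uq γ p / η) / η * mq γ p v := by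
        have := deriv_SS_nonneg (uq γ p / η)
        have := mq_nonneg γ hp v
        positivity
      have h3 := w1_nonneg p v
      linarith

theorem Loc_far {p : C2} (hp : p ∈ Up) (h : ∀ᶠ q in 𝓝 p, q ∈ Up ∧ ∀ γ ∈ CG, e0 < uq γ q) :
    Loc (fun z => ((potKB z : ℝ) : EReal) + lift Hs z) p := by
  left
  refine ⟨potKB, ?_, (potKB_form hp h.self_of_nhds.2).1, fun v => ?_⟩
  · filter_upwards [h] with q hq
    rw [lift_far Hs (fun t ht => Hs_zero ht) hq.2, add_zero]
  · rw [← (potKB_form hp h.self_of_nhds.2).2, Qf_far e0_pos le_rfl hp h.self_of_nhds.2,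
      leviForm_potB hp]
    have h3 := w1_nonneg p v
    unfold Qk
    linarith

/-- a point which is not on any graph. -/
theorem exists_off : ∃ p ∈ Up, lift Hs p ≠ ⊥ := by
  refine ⟨(Complex.I, 4 / 3 * Complex.I), mem_Up.2 (by simp), ?_⟩
  set p : C2 := (Complex.I, 4 / 3 * Complex.I) with hp
  have hpU : p ∈ Up := mem_Up.2 (by simp [hp])
  by_cases hn : Near p
  · obtain ⟨h1, h2⟩ := gm_spec hn
    have h3 : uq (gm p) p ≠ 0 := by
      intro h0
      -- then `gm p = 1`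
      have h4 : toH1 ⟨p, hpU⟩ = gm p • toH2 ⟨p, hpU⟩ := by
        have h5 := uq_Up (gm p) ⟨p, hpU⟩
        have h6 : uq (gm p) p = 0 := h0
        rw [show uq (gm p) ((⟨p, hpU⟩ : Up) : C2) = uq (gm p) p from rfl, h6] at h5
        have h7 : Real.cosh (dist (toH1 ⟨p, hpU⟩) (gm p • toH2 ⟨p, hpU⟩)) = 1 := by linarith
        by_contra hne
        have h8 := Real.one_lt_cosh.2 (dist_ne_zero.2 hne)
        linarith
      -- distance between `i` and `3i/2`
      have h8 : dist (toH1 ⟨p, hpU⟩) (toH2 ⟨p, hpU⟩) < 1 / 2 := by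
        have h9 : uq 1 p = 1 / 48 := by
          unfold uq
          rw [act_one]
          simp only [uu, hp, Complex.normSq_apply]
          norm_num
        rw [← one_smul SL(2, ℝ) (toH2 ⟨p, hpU⟩), ← uq_lt_k0 (γ := 1) (p := ⟨p, hpU⟩)]
        change uq 1 p < k0
        rw [h9, k0, Real.cosh_eq]
        have h10 := Real.quadratic_le_exp_of_nonneg (x := 1 / 2) (by norm_num)
        have h11 := Real.add_one_le_exp (-(1 / 2 : ℝ))
        norm_num at h10 h11 ⊢
        linarith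
      have h12 : gm p = 1 := by
        refine CG_far.eq_of_dist_lt h1 (one_mem _) (z := toH2 ⟨p, hpU⟩) ?_
        rw [← h4, one_smul]
        linarith
      rw [h12, one_smul] at h4
      have h13 := congrArg UpperHalfPlane.im h4
      change p.1.im = p.2.im at h13
      simp [hp] at h13
      norm_num at h13
    unfold lift
    rw [if_pos hn]
    simp only [Hs, if_neg h3]
    exact EReal.coe_ne_bot _
  · unfold lift
    rw [if_neg hn]
    exact EReal.zero_ne_bot

/-- **The class is big.** -/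
theorem isBig_Qf : IsBig (dQ Qk) (dQ (Qf e0)) := by
  refine isBig_of (fun _ hg _ hh _ hp v => Qf_act e0 hg hh hp v) invQ_Qk (invF_lift Hs) exists_off
    fun p hp => ?_
  rcases near_or_far hp with ⟨γ, hγ, h⟩ | h
  · refine ⟨potK γ, ?_⟩
    filter_upwards [h.eventually_nhds] with q hq
    have hq0 := hq.self_of_nhds
    refine ⟨potK_form hγ hq0.1 hq0.2, (Loc_near (γ := γ) hq0.1).congr ?_⟩
    filter_upwards [hq] with z hz
    rw [lift_near Hs hz.1 hγ hz.2]
  · refine ⟨potKB, ?_⟩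
    filter_upwards [h.eventually_nhds] with q hq
    have hq0 := hq.self_of_nhds
    exact ⟨potKB_form hq0.1 hq0.2, Loc_far hq0.1 hq⟩

end Pool.Agent.N514.NB
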