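import Mathlib

/-!
# Closed real (1,1)-forms and their classes on a complex surface

A complex surface is a manifold whose charts take values in `ℂ² = ℂ × ℂ` and whose coordinate
changes are holomorphic. As everywhere in Mathlib the tangent space at `x` is the model space `ℂ²`,
through the preferred chart at `x`.

A real `(1,1)`-form `θ` is the same thing as the family of its Hermitian quadratic forms
`v ↦ θ(v, J v)`, and `θ ≥ 0` means that these quadratic forms are nonnegative. By the local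
`∂∂̄`-lemma a `(1,1)`-form is smooth and closed if and only if it is locally `i∂∂̄φ` for a smooth
real function `φ`.
-/

set_option autoImplicit false

open scoped Manifold ContDiff Topology
open Set

namespace Pool.Agent.N514.NB

/-- The model space `ℂ²`. -/
abbrev C2 : Type := ℂ × ℂ

/-- The Levi form of `φ` at `z` in the direction `v`: `D²φ(z)(v, v) + D²φ(z)(iv, iv)`, that is
`4 ∑ (∂²φ / ∂z_j ∂z̄_k) v_j v̄_k`, the value at `(v, Jv)` of the form `2 i∂∂̄φ`. -/
noncomputable def leviForm (φ : C2 → ℝ) (z v : C2) : ℝ :=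
  fderiv ℝ (fun w => fderiv ℝ φ w v) z v +
    fderiv ℝ (fun w => fderiv ℝ φ w (Complex.I • v)) z (Complex.I • v)

section

variable {X : Type} [TopologicalSpace X] [ChartedSpace C2 X]

/-- The Levi form of the function `u` on `X` at the point `x`, in the preferred chart at `x`. -/
noncomputable def levi (u : X → ℝ) (x : X) (v : TangentSpace 𝓘(ℂ, C2) x) : ℝ :=
  leviForm (u ∘ (chartAt C2 x).symm) (chartAt C2 x x) v

/-- `θ` is (the family of quadratic forms of) a smooth closed real `(1,1)`-form on `X`: locally it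
is the Levi form of a smooth function. -/
def IsClosedForm (θ : ∀ x : X, TangentSpace 𝓘(ℂ, C2) x → ℝ) : Prop :=
  ∀ x₀ : X, ∃ U : Set X, IsOpen U ∧ x₀ ∈ U ∧ ∃ φ : X → ℝ, ∀ x ∈ U,
    ContMDiffAt 𝓘(ℝ, C2) 𝓘(ℝ, ℝ) ∞ φ x ∧ ∀ v, θ x v = levi φ x v

/-- `θ` and `θ'` have the same Bott-Chern class: `θ' = θ + i∂∂̄u` (up to the universal factor in
`leviForm`) for a smooth real function `u` on `X`. -/
def SameClass (θ θ' : ∀ x : X, TangentSpace 𝓘(ℂ, C2) x → ℝ) : Prop :=
  ∃ u : X → ℝ, ContMDiff 𝓘(ℝ, C2) 𝓘(ℝ, ℝ) ∞ u ∧ ∀ x v, θ' x v = θ x v + levi u x v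

/-- `κ` is a Kähler form: a smooth closed positive definite real `(1,1)`-form. -/
def IsKahlerForm (κ : ∀ x : X, TangentSpace 𝓘(ℂ, C2) x → ℝ) : Prop :=
  IsClosedForm κ ∧ ∀ x v, v ≠ 0 → 0 < κ x v

/-- The class of `θ` is nef, with respect to the Kähler form `κ`: for every `ε > 0` it contains a
smooth form `θ'` with `θ' ≥ -ε κ`. -/
def IsNef (κ θ : ∀ x : X, TangentSpace 𝓘(ℂ, C2) x → ℝ) : Prop :=
  ∀ ε : ℝ, 0 < ε → ∃ θ' : ∀ x : X, TangentSpace 𝓘(ℂ, C2) x → ℝ,
    IsClosedForm θ' ∧ SameClass θ θ' ∧ ∀ x v, -(ε * κ x v) ≤ θ' x v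

end

/-- `u : Ω → [-∞, ∞)` is plurisubharmonic on the open subset `Ω` of `ℂ²`: it is upper
semicontinuous, and its restriction to every closed disc `{z + ζ v : |ζ| ≤ 1}` contained in `Ω` has
the following property (a classical form of the submean property): if `u ≤ Re p` on the boundary
circle for a polynomial `p` in `ζ`, then `u ≤ Re p` at the centre. -/
def IsPSH (u : C2 → EReal) (Ω : Set C2) : Prop :=
  UpperSemicontinuousOn u Ω ∧ (∀ z ∈ Ω, u z ≠ ⊤) ∧
    ∀ z v : C2, (∀ ζ : ℂ, ‖ζ‖ ≤ 1 → z + ζ • v ∈ Ω) → ∀ p : Polynomial ℂ,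
      (∀ ζ : ℂ, ‖ζ‖ = 1 → u (z + ζ • v) ≤ (((p.eval ζ).re : ℝ) : EReal)) →
        u z ≤ (((p.eval 0).re : ℝ) : EReal)

section

variable {X : Type} [TopologicalSpace X] [ChartedSpace C2 X]

/-- The class of `θ` is big: it contains a Kähler current `T = θ + i∂∂̄φ ≥ δ κ`, `δ > 0`. Here
`φ : X → [-∞, ∞)` is not identically `-∞`, and `T ≥ δ κ` means that locally, if the smooth function
`ρ` is a potential of `θ - δ κ`, then `ρ + φ` is plurisubharmonic (in the preferred chart at the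
point under consideration). -/
def IsBig (κ θ : ∀ x : X, TangentSpace 𝓘(ℂ, C2) x → ℝ) : Prop :=
  ∃ δ : ℝ, 0 < δ ∧ ∃ φ : X → EReal, (∃ x, φ x ≠ ⊥) ∧
    ∀ x₀ : X, ∃ U : Set X, IsOpen U ∧ x₀ ∈ U ∧ U ⊆ (chartAt C2 x₀).source ∧ ∃ ρ : X → ℝ,
      (∀ x ∈ U, ContMDiffAt 𝓘(ℝ, C2) 𝓘(ℝ, ℝ) ∞ ρ x ∧ ∀ v, θ x v - δ * κ x v = levi ρ x v) ∧
      IsPSH (fun z => ((ρ ((chartAt C2 x₀).symm z) : ℝ) : EReal) + φ ((chartAt C2 x₀).symm z))
        (chartAt C2 x₀ '' U)

end

end Pool.Agent.N514.NB
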