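import Pool.Agent.N514.NB.Glue

/-!
# Functions and forms on the quotient
-/

set_option autoImplicit false

open scoped Manifold ContDiff Topology ComplexConjugate MatrixGroups UpperHalfPlane
open Set Filter

namespace Pool.Agent.N514.NB

open Pool.Agent.W711.KC (CG CG_far ex ex_apply ex_mem HolGroup QQ pr pr_surj continuous_pr
  pr_eq_iff pr_smul chart_self_mem pr_chart_self atlas_target atlas_symm chart_mem pr_chart
  deck deck_symm local_pr local_pr')

/-- invariance of a function. -/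
def InvF {α : Type} (f : C2 → α) : Prop :=
  ∀ g ∈ CG, ∀ h ∈ CG, ∀ p ∈ Up, f (act g h p) = f p

/-- invariance of a form. -/
def InvQ (Q : C2 → C2 → ℝ) : Prop :=
  ∀ g ∈ CG, ∀ h ∈ CG, ∀ p ∈ Up, ∀ v, Q (act g h p) (fderiv ℂ (act g h) p v) = Q p v

theorem InvF.ex {α : Type} {f : C2 → α} (hf : InvF f) {γ : Equiv.Perm Up} (hγ : γ ∈ GG) {p : C2}
    (hp : p ∈ Up) : f (ex γ p) = f p := by
  obtain ⟨g, hg, h, hh, rfl⟩ := hγ
  rw [ex_actP_eq g h hp]
  exact hf g hg h hh p hp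

theorem InvQ.ex {Q : C2 → C2 → ℝ} (hQ : InvQ Q) {γ : Equiv.Perm Up} (hγ : γ ∈ GG) {p : C2}
    (hp : p ∈ Up) (v : C2) : Q (ex γ p) (fderiv ℂ (ex γ) p v) = Q p v := by
  obtain ⟨g, hg, h, hh, rfl⟩ := hγ
  rw [ex_actP_eq g h hp, (ex_actP_eventually g h hp).fderiv_eq]
  exact hQ g hg h hh p hp v

/-- the function on the quotient. -/
noncomputable def dF {α : Type} (f : C2 → α) (x : XX) : α := f (chartAt C2 x x)

/-- the form on the quotient. -/
noncomputable def dQ (Q : C2 → C2 → ℝ) (x : XX) (v : TangentSpace 𝓘(ℂ, C2) x) : ℝ := Q (chartAt C2 x x) v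

theorem dF_symm {α : Type} {f : C2 → α} (hf : InvF f) (x : XX) {z : C2} (hz : z ∈ (chartAt C2 x).target) :
    dF f ((chartAt C2 x).symm z) = f z := by
  obtain ⟨γ, hγ, h1, -⟩ := deck_symm (chart_mem_atlas C2 x)
    (chart_mem_atlas C2 ((chartAt C2 x).symm z)) hz (mem_chart_source C2 _)
  unfold dF
  rw [← h1]
  exact hf.ex hγ (atlas_target (chart_mem_atlas C2 x) hz)

theorem dF_eq {α : Type} {f : C2 → α} (hf : InvF f) (x : XX) {y : XX} (hy : y ∈ (chartAt C2 x).source) :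
    dF f y = f (chartAt C2 x y) := by
  have := dF_symm hf x ((chartAt C2 x).map_source hy)
  rwa [(chartAt C2 x).left_inv hy] at this

/-- smoothness on a manifold, in the preferred chart. -/
theorem contMDiffAt_of {u : XX → ℝ} {x : XX} (x₀ : XX) (hx : x ∈ (chartAt C2 x₀).source) {f : C2 → ℝ}
    (hf : ContDiffAt ℝ ∞ f (chartAt C2 x₀ x)) (h : ∀ᶠ y in 𝓝 x, u y = f (chartAt C2 x₀ y)) :
    ContMDiffAt 𝓘(ℝ, C2) 𝓘(ℝ, ℝ) ∞ u x := by
  have hp := chart_self_mem x
  obtain ⟨γ, hγ, h1, h2⟩ := deck_symm (chart_mem_atlas C2 x) (chart_mem_atlas C2 x₀)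
    ((chartAt C2 x).map_source (mem_chart_source C2 x))
    (by rw [(chartAt C2 x).left_inv (mem_chart_source C2 x)]; exact hx)
  rw [(chartAt C2 x).left_inv (mem_chart_source C2 x)] at h1
  have hh : ContDiffAt ℝ ∞ (ex (γ : Up → Up)) (chartAt C2 x x) :=
    (((HolGroup.hol γ hγ).contDiffAt (Up.isOpen.mem_nhds hp)).restrict_scalars ℝ).of_le (by simp)
  rw [contMDiffAt_iff]
  constructor
  · have c1 : ContinuousAt (fun y => f (chartAt C2 x₀ y)) x :=
      ContinuousAt.comp (g := f) hf.continuousAt ((chartAt C2 x₀).continuousAt hx)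
    exact c1.congr (by filter_upwards [h] with y hy using hy.symm)
  · have c2 : ContDiffAt ℝ ∞ (u ∘ (chartAt C2 x).symm) (chartAt C2 x x) := by
      have e1 : ∀ᶠ z in 𝓝 (chartAt C2 x x), u ((chartAt C2 x).symm z) = f (chartAt C2 x₀ ((chartAt C2 x).symm z)) := by
        have := (chartAt C2 x).continuousAt_symm ((chartAt C2 x).map_source (mem_chart_source C2 x))
        have h3 := this.eventually (p := fun y => u y = f (chartAt C2 x₀ y))
          (by rw [(chartAt C2 x).left_inv (mem_chart_source C2 x)]; exact h)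
        exact h3
      have e2 : (u ∘ (chartAt C2 x).symm) =ᶠ[𝓝 (chartAt C2 x x)] fun z => f (ex γ z) := by
        filter_upwards [e1, h2] with z hz1 hz2
        rw [Function.comp_apply, hz1, hz2]
      refine ContDiffAt.congr_of_eventuallyEq ?_ e2
      have hf' : ContDiffAt ℝ ∞ f (ex γ (chartAt C2 x x)) := by rw [h1]; exact hf
      exact hf'.comp _ hh
    have c3 := c2.contDiffWithinAt (s := range 𝓘(ℝ, C2))
    simpa [chartAt_self_eq] using c3

theorem contMDiff_dF {f : C2 → ℝ} (hf : InvF f) (hs : ∀ p ∈ Up, ContDiffAt ℝ ∞ f p) :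
    ContMDiff 𝓘(ℝ, C2) 𝓘(ℝ, ℝ) ∞ (dF f) := by
  intro x
  refine contMDiffAt_of x (mem_chart_source C2 x) (hs _ (chart_self_mem x)) ?_
  filter_upwards [(chartAt C2 x).open_source.mem_nhds (mem_chart_source C2 x)] with y hy
    using dF_eq hf x hy

theorem levi_dF {f : C2 → ℝ} (hf : InvF f) (x : XX) (v : TangentSpace 𝓘(ℂ, C2) x) :
    levi (dF f) x v = leviForm f (chartAt C2 x x) v := by
  unfold levi
  apply leviForm_congr
  filter_upwards [(chartAt C2 x).open_target.mem_nhds ((chartAt C2 x).map_source (mem_chart_source C2 x))] with z hz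
  exact dF_symm hf x hz

/-- A form on the quotient with local potentials is a closed form. -/
theorem isClosedForm_dQ {Q : C2 → C2 → ℝ} (hQ : InvQ Q)
    (hpot : ∀ p ∈ Up, ∃ Ψ : C2 → ℝ, ∀ᶠ q in 𝓝 p, ContDiffAt ℝ ∞ Ψ q ∧
      ∀ v, Q q v = leviForm Ψ q v) : IsClosedForm (dQ Q) := by
  intro x₀
  obtain ⟨Ψ, hΨ⟩ := hpot (chartAt C2 x₀ x₀) (chart_self_mem x₀)
  obtain ⟨W, hW, hWo, hpW⟩ := eventually_nhds_iff.1 hΨ
  refine ⟨(chartAt C2 x₀).source ∩ chartAt C2 x₀ ⁻¹' W, (chartAt C2 x₀).isOpen_inter_preimage hWo,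
    ⟨mem_chart_source C2 x₀, hpW⟩, fun y => Ψ (chartAt C2 x₀ y), fun x hx => ?_⟩
  obtain ⟨hx1, hx2⟩ := hx
  have hp := chart_self_mem x
  obtain ⟨γ, hγ, h1, h2⟩ := deck_symm (chart_mem_atlas C2 x) (chart_mem_atlas C2 x₀)
    ((chartAt C2 x).map_source (mem_chart_source C2 x))
    (by rw [(chartAt C2 x).left_inv (mem_chart_source C2 x)]; exact hx1)
  rw [(chartAt C2 x).left_inv (mem_chart_source C2 x)] at h1
  refine ⟨?_, fun v => ?_⟩
  · exact contMDiffAt_of x₀ hx1 (hW _ hx2).1 (Eventually.of_forall fun y => rfl)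
  · have e : ((fun y => Ψ (chartAt C2 x₀ y)) ∘ (chartAt C2 x).symm) =ᶠ[𝓝 (chartAt C2 x x)]
        Ψ ∘ ex γ := by
      filter_upwards [h2] with z hz
      simp only [Function.comp_apply]
      rw [hz]
    have hh : ContDiffAt ℂ ω (ex (γ : Up → Up)) (chartAt C2 x x) :=
      (HolGroup.hol γ hγ).contDiffAt (Up.isOpen.mem_nhds hp)
    have hm : ex γ (chartAt C2 x x) ∈ W := by rw [h1]; exact hx2
    have key : ∀ v : C2, Q (chartAt C2 x x) v =
        leviForm ((fun y => Ψ (chartAt C2 x₀ y)) ∘ (chartAt C2 x).symm) (chartAt C2 x x) v := by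
      intro v
      rw [leviForm_congr e, leviForm_comp hh (hW _ hm).1, ← (hW _ hm).2]
      exact (hQ.ex hγ hp v).symm
    exact key v

/-- the Kähler form. -/
noncomputable def Qk (p v : C2) : ℝ := w1 p v + w2 p v

theorem invQ_Qk : InvQ Qk := by
  intro g _ h _ p hp v
  unfold Qk
  rw [w1_act _ _ hp, w2_act _ _ hp]

theorem isKahlerForm_Qk : IsKahlerForm (dQ Qk) := by
  constructor
  · refine isClosedForm_dQ invQ_Qk fun p hp => ⟨fun q => (-1) * Real.log (Y1 q) +
      (-1) * Real.log (Y2 q), ?_⟩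
    filter_upwards [Up.isOpen.mem_nhds hp] with q hq
    have c1 := contDiffAt_const (c := (-1 : ℝ)).mul (contDiffAt_logY1 hq)
    have c2 := contDiffAt_const (c := (-1 : ℝ)).mul (contDiffAt_logY2 hq)
    refine ⟨c1.add c2, fun v => ?_⟩
    rw [leviForm_add c1 c2, leviForm_const_mul (contDiffAt_logY1 hq),
      leviForm_const_mul (contDiffAt_logY2 hq), leviForm_logY1 hq, leviForm_logY2 hq]
    unfold Qk
    ring
  · intro x v hv
    have hp := mem_Up.1 (chart_self_mem x)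
    unfold dQ Qk w1 w2
    have h1 : 0 ≤ Complex.normSq v.1 := Complex.normSq_nonneg _
    have h2 : 0 ≤ Complex.normSq v.2 := Complex.normSq_nonneg _
    have i1 : 0 < (chartAt C2 x x).1.im ^ 2 := pow_pos hp.1 2
    have i2 : 0 < (chartAt C2 x x).2.im ^ 2 := pow_pos hp.2 2
    by_cases h3 : v.1 = 0
    · have h4 : v.2 ≠ 0 := fun h4 => hv (Prod.ext h3 h4)
      have h5 : 0 < Complex.normSq v.2 := Complex.normSq_pos.2 h4
      exact add_pos_of_nonneg_of_pos (div_nonneg h1 i1.le) (div_pos h5 i2)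
    · have h5 : 0 < Complex.normSq v.1 := Complex.normSq_pos.2 h3
      exact add_pos_of_pos_of_nonneg (div_pos h5 i1) (div_nonneg h2 i2.le)

theorem isClosedForm_Qf {η : ℝ} (hη : 0 < η) (hηe : η ≤ e0) : IsClosedForm (dQ (Qf η)) :=
  isClosedForm_dQ (fun _ hg _ hh _ hp v => Qf_act η hg hh hp v) fun _ hp => Qf_potential hη hηe hp

theorem invF_lift {α : Type} [Zero α] (H : ℝ → α) : InvF (lift H) :=
  fun _ hg _ hh _ hp => lift_act H hg hh hp

/-- **The class is nef.** -/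
theorem isNef_Qf : IsNef (dQ Qk) (dQ (Qf e0)) := by
  intro ε hε
  set η : ℝ := min e0 (4 * ε) with hη
  have h0 : 0 < η := lt_min e0_pos (by linarith)
  have h1 : η ≤ e0 := min_le_left _ _
  have h2 : η ≤ 4 * ε := min_le_right _ _
  refine ⟨dQ (Qf η), isClosedForm_Qf h0 h1, ⟨dF (lift (HH e0 η)), ?_, fun x v => ?_⟩, fun x v => ?_⟩
  · exact contMDiff_dF (invF_lift _) fun p hp => contDiffAt_lift (contDiff_HH _ _)
      (fun t ht => HH_zero e0_pos h0 le_rfl h1 ht) hp
  · rw [levi_dF (invF_lift _)]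
    exact Qf_class e0_pos h0 le_rfl h1 (chart_self_mem x) v
  · exact Qf_ge h0 hε h2 (chart_self_mem x) v

end Pool.Agent.N514.NB
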