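import Pool.Agent.N514.NB.Grp

/-!
# Gluing near the graphs of the elements of `Γ`
-/

set_option autoImplicit false

open scoped Manifold ContDiff Topology ComplexConjugate MatrixGroups UpperHalfPlane
open Set Filter

namespace Pool.Agent.N514.NB

open Pool.Agent.H85R3
open Pool.Agent.W711.KC (CG CG_far)
open Pool.Agent.TH997.KG (mob mob_coe mob_mem mob_mul mob_one mob_inv_left mob_inv_right
  hasDerivAt_mob VV)

/-- `uu (z, γ w)`. -/
noncomputable def uq (γ : SL(2, ℝ)) (p : C2) : ℝ := uu (act 1 γ p)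

noncomputable def k0 : ℝ := (Real.cosh (1 / 2) - 1) / 2
noncomputable def e0 : ℝ := (Real.cosh (1 / 4) - 1) / 2

theorem e0_pos : 0 < e0 := by
  unfold e0
  have : 1 < Real.cosh (1 / 4) := Real.one_lt_cosh.2 (by norm_num)
  linarith

theorem e0_lt_k0 : e0 < k0 := by
  unfold e0 k0
  have : Real.cosh (1 / 4) < Real.cosh (1 / 2) := by
    rw [Real.cosh_lt_cosh, abs_of_pos (by norm_num), abs_of_pos (by norm_num)]
    norm_num
  linarith

theorem uq_Up (γ : SL(2, ℝ)) (p : Up) :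
    uq γ p = (Real.cosh (dist (toH1 p) (γ • toH2 p)) - 1) / 2 := by
  have h := uu_Up (actP 1 γ p)
  rw [toH1_actP, toH2_actP, one_smul] at h
  exact h

theorem uq_lt_k0 {γ : SL(2, ℝ)} {p : Up} : uq γ p < k0 ↔ dist (toH1 p) (γ • toH2 p) < 1 / 2 := by
  rw [uq_Up, k0]
  constructor
  · intro h
    have h1 : Real.cosh (dist (toH1 p) (γ • toH2 p)) < Real.cosh (1 / 2) := by linarith
    rw [Real.cosh_lt_cosh, abs_of_nonneg dist_nonneg, abs_of_pos (by norm_num)] at h1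
    exact h1
  · intro h
    have h1 : Real.cosh (dist (toH1 p) (γ • toH2 p)) < Real.cosh (1 / 2) := by
      rw [Real.cosh_lt_cosh, abs_of_nonneg dist_nonneg, abs_of_pos (by norm_num)]
      exact h
    linarith

theorem e0_lt_uq {γ : SL(2, ℝ)} {p : Up} : e0 < uq γ p ↔ 1 / 4 < dist (toH1 p) (γ • toH2 p) := by
  rw [uq_Up, e0]
  constructor
  · intro h
    have h1 : Real.cosh (1 / 4) < Real.cosh (dist (toH1 p) (γ • toH2 p)) := by linarith
    rw [Real.cosh_lt_cosh, abs_of_nonneg dist_nonneg, abs_of_pos (by norm_num)] at h1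
    exact h1
  · intro h
    have h1 : Real.cosh (1 / 4) < Real.cosh (dist (toH1 p) (γ • toH2 p)) := by
      rw [Real.cosh_lt_cosh, abs_of_nonneg dist_nonneg, abs_of_pos (by norm_num)]
      exact h
    linarith

theorem near_unique {p : C2} (hp : p ∈ Up) {γ γ' : SL(2, ℝ)} (hγ : γ ∈ CG) (hγ' : γ' ∈ CG)
    (h : uq γ p < k0) (h' : uq γ' p < k0) : γ = γ' := by
  have h1 := (uq_lt_k0 (p := ⟨p, hp⟩)).1 h
  have h2 := (uq_lt_k0 (p := ⟨p, hp⟩)).1 h'
  refine CG_far.eq_of_dist_lt hγ hγ' (z := toH2 ⟨p, hp⟩) ?_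
  have h3 := dist_triangle_left (γ • toH2 ⟨p, hp⟩) (γ' • toH2 ⟨p, hp⟩) (toH1 ⟨p, hp⟩)
  linarith

/-- `p` is close to the graph of an element of `Γ`. -/
def Near (p : C2) : Prop := ∃ γ ∈ CG, uq γ p < k0

open Classical in
/-- the element of `Γ` whose graph is close to `p`. -/
noncomputable def gm (p : C2) : SL(2, ℝ) := if h : Near p then h.choose else 1

theorem gm_spec {p : C2} (h : Near p) : gm p ∈ CG ∧ uq (gm p) p < k0 := by
  unfold gm
  rw [dif_pos h]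
  exact h.choose_spec

theorem gm_eq {p : C2} (hp : p ∈ Up) {γ : SL(2, ℝ)} (hγ : γ ∈ CG) (h : uq γ p < k0) :
    gm p = γ := by
  obtain ⟨h1, h2⟩ := gm_spec ⟨γ, hγ, h⟩
  exact near_unique hp h1 hγ h2 h

theorem contDiffAt_uq (γ : SL(2, ℝ)) {p : C2} (hp : p ∈ Up) : ContDiffAt ℝ ∞ (uq γ) p := by
  have h1 : ContDiffAt ℝ ω (act 1 γ) p := (contDiffAt_act 1 γ hp).restrict_scalars ℝ
  exact (contDiffAt_uu (act_mem 1 γ hp)).comp p (h1.of_le (by simp))

/-- the two types of points. -/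
theorem near_or_far {p : C2} (hp : p ∈ Up) :
    (∃ γ ∈ CG, ∀ᶠ q in 𝓝 p, q ∈ Up ∧ uq γ q < k0) ∨
      (∀ᶠ q in 𝓝 p, q ∈ Up ∧ ∀ γ ∈ CG, e0 < uq γ q) := by
  by_cases h : Near p
  · left
    obtain ⟨γ, hγ, h1⟩ := h
    refine ⟨γ, hγ, ?_⟩
    filter_upwards [Up.isOpen.mem_nhds hp,
      (contDiffAt_uq γ hp).continuousAt.eventually_lt continuousAt_const h1] with q hq1 hq2
    exact ⟨hq1, hq2⟩
  · right
    have hall : ∀ γ ∈ CG, 1 / 2 ≤ dist (toH1 ⟨p, hp⟩) (γ • toH2 ⟨p, hp⟩) := by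
      intro γ hγ
      by_contra hcon
      push Not at hcon
      exact h ⟨γ, hγ, (uq_lt_k0 (p := ⟨p, hp⟩)).2 hcon⟩
    have c1 : ∀ᶠ q : Up in 𝓝 ⟨p, hp⟩, dist (toH1 q) (toH1 ⟨p, hp⟩) < 1 / 16 :=
      continuous_toH1.continuousAt.eventually (Metric.ball_mem_nhds _ (by norm_num))
    have c2 : ∀ᶠ q : Up in 𝓝 ⟨p, hp⟩, dist (toH2 q) (toH2 ⟨p, hp⟩) < 1 / 16 :=
      continuous_toH2.continuousAt.eventually (Metric.ball_mem_nhds _ (by norm_num))
    have c3 : ∀ᶠ q : Up in 𝓝 ⟨p, hp⟩, (q : C2) ∈ Up ∧ ∀ γ ∈ CG, e0 < uq γ q := by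
      filter_upwards [c1, c2] with q h1 h2
      refine ⟨q.2, fun γ hγ => ?_⟩
      rw [e0_lt_uq]
      have h3 := hall γ hγ
      have h4 : dist (γ • toH2 q) (γ • toH2 ⟨p, hp⟩) < 1 / 16 := by rwa [dist_smul]
      have h5 := dist_triangle4 (toH1 ⟨p, hp⟩) (toH1 q) (γ • toH2 q) (γ • toH2 ⟨p, hp⟩)
      rw [dist_comm (toH1 ⟨p, hp⟩) (toH1 q)] at h5
      linarith
    have h6 := map_nhds_subtype_coe_eq_nhds (p := fun q : C2 => q ∈ Up) hp (Up.isOpen.mem_nhds hp)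
    rw [← h6, eventually_map]
    exact c3

/-! ### Invariance -/

theorem uq_act {g h : SL(2, ℝ)} (γ : SL(2, ℝ)) {p : C2} (hp : p ∈ Up) :
    uq (g * γ * h⁻¹) (act g h p) = uq γ p := by
  unfold uq
  rw [act_act _ _ _ _ hp, one_mul, inv_mul_cancel_right, ← uu_act g (act_mem 1 γ hp),
    act_act _ _ _ _ hp, mul_one]

theorem near_act_of {g h : SL(2, ℝ)} (hg : g ∈ CG) (hh : h ∈ CG) {p : C2} (hp : p ∈ Up)
    (hn : Near p) : Near (act g h p) ∧ gm (act g h p) = g * gm p * h⁻¹ := by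
  obtain ⟨h1, h2⟩ := gm_spec hn
  have h3 : g * gm p * h⁻¹ ∈ CG := mul_mem (mul_mem hg h1) (inv_mem hh)
  have h4 : uq (g * gm p * h⁻¹) (act g h p) < k0 := by rwa [uq_act _ hp]
  exact ⟨⟨_, h3, h4⟩, gm_eq (act_mem g h hp) h3 h4⟩

theorem near_act {g h : SL(2, ℝ)} (hg : g ∈ CG) (hh : h ∈ CG) {p : C2} (hp : p ∈ Up) :
    Near (act g h p) ↔ Near p := by
  refine ⟨fun hn => ?_, fun hn => (near_act_of hg hh hp hn).1⟩
  have h1 := (near_act_of (inv_mem hg) (inv_mem hh) (act_mem g h hp) hn).1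
  rwa [act_act _ _ _ _ hp, inv_mul_cancel, inv_mul_cancel, act_one] at h1

open Classical in
/-- The function which is `H (uq γ)` near the graph of `γ` and `0` elsewhere. -/
noncomputable def lift {α : Type} [Zero α] (H : ℝ → α) (p : C2) : α :=
  if Near p then H (uq (gm p) p) else 0

theorem lift_near {α : Type} [Zero α] (H : ℝ → α) {p : C2} (hp : p ∈ Up) {γ : SL(2, ℝ)}
    (hγ : γ ∈ CG) (h : uq γ p < k0) : lift H p = H (uq γ p) := by
  unfold lift
  rw [if_pos ⟨γ, hγ, h⟩, gm_eq hp hγ h]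

theorem lift_far {α : Type} [Zero α] (H : ℝ → α) (hH : ∀ t, e0 < t → H t = 0) {p : C2}
    (h : ∀ γ ∈ CG, e0 < uq γ p) : lift H p = 0 := by
  unfold lift
  split_ifs with hn
  · exact hH _ (h _ (gm_spec hn).1)
  · rfl

theorem lift_act {α : Type} [Zero α] (H : ℝ → α) {g h : SL(2, ℝ)} (hg : g ∈ CG) (hh : h ∈ CG)
    {p : C2} (hp : p ∈ Up) : lift H (act g h p) = lift H p := by
  unfold lift
  by_cases hn : Near p
  · obtain ⟨h1, h2⟩ := near_act_of hg hh hp hn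
    rw [if_pos hn, if_pos h1, h2, uq_act _ hp]
  · rw [if_neg hn, if_neg (fun h' => hn ((near_act hg hh hp).1 h'))]

theorem contDiffAt_lift {H : ℝ → ℝ} (hH : ContDiff ℝ ∞ H) (hH0 : ∀ t, e0 < t → H t = 0)
    {p : C2} (hp : p ∈ Up) : ContDiffAt ℝ ∞ (lift H) p := by
  rcases near_or_far hp with ⟨γ, hγ, h⟩ | h
  · have : lift H =ᶠ[𝓝 p] fun q => H (uq γ q) := by
      filter_upwards [h] with q hq using lift_near H hq.1 hγ hq.2
    exact (hH.contDiffAt.comp p (contDiffAt_uq γ hp)).congr_of_eventuallyEq this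
  · have : lift H =ᶠ[𝓝 p] fun _ => 0 := by
      filter_upwards [h] with q hq using lift_far H hH0 hq.2
    exact contDiffAt_const.congr_of_eventuallyEq this

/-! ### The forms -/

/-- the pull-back of `mm`. -/
noncomputable def mq (γ : SL(2, ℝ)) (p v : C2) : ℝ := mm (act 1 γ p) (fderiv ℂ (act 1 γ) p v)

theorem mq_nonneg (γ : SL(2, ℝ)) {p : C2} (hp : p ∈ Up) (v : C2) : 0 ≤ mq γ p v :=
  mm_nonneg (act_mem 1 γ hp) _

theorem leviForm_uq (γ : SL(2, ℝ)) {p : C2} (hp : p ∈ Up) (v : C2) :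
    leviForm (uq γ) p v = uq γ p * (w1 p v + w2 p v) + mq γ p v := by
  have h : uq γ = uu ∘ act 1 γ := rfl
  rw [h, leviForm_comp (contDiffAt_act 1 γ hp) (contDiffAt_uu (act_mem 1 γ hp)),
    leviForm_uu (act_mem 1 γ hp), w1_act _ _ hp, w2_act _ _ hp]
  rfl

theorem leviForm_F_uq {F : ℝ → ℝ} (hF : ContDiff ℝ ∞ F) (γ : SL(2, ℝ)) {p : C2} (hp : p ∈ Up)
    (v : C2) : leviForm (fun q => F (uq γ q)) p v =
      uq γ p * deriv F (uq γ p) * (w1 p v + w2 p v) +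
      (deriv F (uq γ p) + uq γ p * deriv (deriv F) (uq γ p)) * mq γ p v := by
  have h : (fun q => F (uq γ q)) = (fun q => F (uu q)) ∘ act 1 γ := rfl
  have h2 : ContDiffAt ℝ ∞ (fun q => F (uu q)) (act 1 γ p) :=
    hF.contDiffAt.comp _ (contDiffAt_uu (act_mem 1 γ hp))
  rw [h, leviForm_comp (contDiffAt_act 1 γ hp) h2, leviForm_F hF (act_mem 1 γ hp),
    w1_act _ _ hp, w2_act _ _ hp]
  rfl

theorem mq_act {g h : SL(2, ℝ)} (γ : SL(2, ℝ)) {p : C2} (hp : p ∈ Up) (v : C2) :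
    mq (g * γ * h⁻¹) (act g h p) (fderiv ℂ (act g h) p v) = mq γ p v := by
  have h1 := leviForm_uq (g * γ * h⁻¹) (act_mem g h hp) (fderiv ℂ (act g h) p v)
  have h2 := leviForm_uq γ hp v
  rw [← leviForm_comp (contDiffAt_act g h hp) (contDiffAt_uq _ (act_mem g h hp)), uq_act γ hp,
    w1_act _ _ hp, w2_act _ _ hp] at h1
  have h3 : uq (g * γ * h⁻¹) ∘ act g h =ᶠ[𝓝 p] uq γ := by
    filter_upwards [Up.isOpen.mem_nhds hp] with q hq using uq_act γ hq
  rw [leviForm_congr h3, h2] at h1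
  linarith

/-- local potentials near the graph of `γ`. -/
noncomputable def pot (η : ℝ) (γ : SL(2, ℝ)) (p : C2) : ℝ :=
  (-1) * Real.log (Y1 p) + Real.log (Y2 p) + FF η (uq γ p)

/-- local potentials away from the graphs. -/
noncomputable def potB (p : C2) : ℝ := (-3) * Real.log (Y1 p) + (-1) * Real.log (Y2 p)

theorem contDiffAt_pot (η : ℝ) (γ : SL(2, ℝ)) {p : C2} (hp : p ∈ Up) :
    ContDiffAt ℝ ∞ (pot η γ) p :=
  ((contDiffAt_const.mul (contDiffAt_logY1 hp)).add (contDiffAt_logY2 hp)).add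
    ((contDiff_FF η).contDiffAt.comp p (contDiffAt_uq γ hp))

theorem contDiffAt_potB {p : C2} (hp : p ∈ Up) : ContDiffAt ℝ ∞ potB p :=
  (contDiffAt_const.mul (contDiffAt_logY1 hp)).add (contDiffAt_const.mul (contDiffAt_logY2 hp))

theorem leviForm_potB {p : C2} (hp : p ∈ Up) (v : C2) :
    leviForm potB p v = 3 * w1 p v + w2 p v := by
  unfold potB
  rw [leviForm_add (contDiffAt_const.mul (contDiffAt_logY1 hp))
    (contDiffAt_const.mul (contDiffAt_logY2 hp)), leviForm_const_mul (contDiffAt_logY1 hp),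
    leviForm_const_mul (contDiffAt_logY2 hp), leviForm_logY1 hp, leviForm_logY2 hp]
  ring

theorem leviForm_pot {η : ℝ} (hη : 0 < η) (γ : SL(2, ℝ)) {p : C2} (hp : p ∈ Up) (v : C2) :
    leviForm (pot η γ) p v = w1 p v - w2 p v + 2 * SS (uq γ p / η) * (w1 p v + w2 p v) +
      2 * deriv SS (uq γ p / η) / η * mq γ p v := by
  unfold pot
  have c1 := contDiffAt_const (c := (-1 : ℝ)).mul (contDiffAt_logY1 hp)
  have c2 := contDiffAt_logY2 hp
  have c3 : ContDiffAt ℝ ∞ (fun q => FF η (uq γ q)) p :=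
    (contDiff_FF η).contDiffAt.comp p (contDiffAt_uq γ hp)
  rw [leviForm_add (c1.add c2) c3, leviForm_add c1 c2, leviForm_const_mul (contDiffAt_logY1 hp),
    leviForm_logY1 hp, leviForm_logY2 hp, leviForm_F_uq (contDiff_FF η) γ hp,
    mul_deriv_FF hη, deriv_FF_add hη]
  ring

open Classical in
/-- The form `θ_η` on `ℍ × ℍ`. -/
noncomputable def Qf (η : ℝ) (p v : C2) : ℝ :=
  if Near p then w1 p v - w2 p v + 2 * SS (uq (gm p) p / η) * (w1 p v + w2 p v) +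
      2 * deriv SS (uq (gm p) p / η) / η * mq (gm p) p v
    else 3 * w1 p v + w2 p v

theorem Qf_near {η : ℝ} (hη : 0 < η) {γ : SL(2, ℝ)} (hγ : γ ∈ CG) {p : C2} (hp : p ∈ Up)
    (h : uq γ p < k0) (v : C2) : Qf η p v = leviForm (pot η γ) p v := by
  unfold Qf
  rw [if_pos ⟨γ, hγ, h⟩, gm_eq hp hγ h, leviForm_pot hη γ hp]

theorem Qf_far {η : ℝ} (hη : 0 < η) (hηe : η ≤ e0) {p : C2} (hp : p ∈ Up)
    (h : ∀ γ ∈ CG, e0 < uq γ p) (v : C2) : Qf η p v = leviForm potB p v := by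
  rw [leviForm_potB hp]
  unfold Qf
  split_ifs with hn
  · have h1 := h _ (gm_spec hn).1
    have h2 : 1 < uq (gm p) p / η := by
      rw [one_lt_div hη]
      linarith
    rw [SS_of_one_le h2.le, deriv_SS_of_one_lt h2]
    ring
  · rfl

theorem Qf_potential {η : ℝ} (hη : 0 < η) (hηe : η ≤ e0) {p : C2} (hp : p ∈ Up) :
    ∃ Ψ : C2 → ℝ, ∀ᶠ q in 𝓝 p, ContDiffAt ℝ ∞ Ψ q ∧ ∀ v, Qf η q v = leviForm Ψ q v := by
  rcases near_or_far hp with ⟨γ, hγ, h⟩ | h
  · refine ⟨pot η γ, ?_⟩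
    filter_upwards [h] with q hq
    exact ⟨contDiffAt_pot η γ hq.1, fun v => Qf_near hη hγ hq.1 hq.2 v⟩
  · refine ⟨potB, ?_⟩
    filter_upwards [h] with q hq
    exact ⟨contDiffAt_potB hq.1, fun v => Qf_far hη hηe hq.1 hq.2 v⟩

theorem Qf_act (η : ℝ) {g h : SL(2, ℝ)} (hg : g ∈ CG) (hh : h ∈ CG) {p : C2} (hp : p ∈ Up)
    (v : C2) : Qf η (act g h p) (fderiv ℂ (act g h) p v) = Qf η p v := by
  unfold Qf
  by_cases hn : Near p
  · obtain ⟨h1, h2⟩ := near_act_of hg hh hp hn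
    rw [if_pos hn, if_pos h1, h2, uq_act _ hp, mq_act _ hp, w1_act _ _ hp, w2_act _ _ hp]
  · rw [if_neg hn, if_neg (fun h' => hn ((near_act hg hh hp).1 h')), w1_act _ _ hp, w2_act _ _ hp]

/-- **Almost positivity.** -/
theorem Qf_ge {η ε : ℝ} (hη : 0 < η) (hε : 0 < ε) (hηε : η ≤ 4 * ε) {p : C2} (hp : p ∈ Up)
    (v : C2) : -(ε * (w1 p v + w2 p v)) ≤ Qf η p v := by
  unfold Qf
  have a1 := w1_nonneg p v
  have a2 := w2_nonneg p v
  split_ifs with hn
  · set γ := gm p with hγ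
    have hu : 0 ≤ uq γ p := uu_nonneg (act_mem 1 γ hp)
    have hs : 0 ≤ SS (uq γ p / η) := SS_nonneg (div_nonneg hu hη.le)
    have hd : 0 ≤ 2 * deriv SS (uq γ p / η) / η := by
      have := deriv_SS_nonneg (uq γ p / η)
      positivity
    have h1 := key_ineq hη hε hηε hu
    have h2 := pos_form (act_mem 1 γ hp) (fderiv ℂ (act 1 γ) p v)
      (G := 2 * SS (uq γ p / η) + ε) (by linarith) hd h1
    rw [w1_act _ _ hp, w2_act _ _ hp] at h2
    change 0 ≤ _ + _ * mq γ p v at h2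
    linarith
  · nlinarith

/-- difference of the potentials. -/
noncomputable def HH (η η' t : ℝ) : ℝ := FF η' t - FF η t

theorem contDiff_HH (η η' : ℝ) : ContDiff ℝ ∞ (HH η η') := (contDiff_FF η').sub (contDiff_FF η)

theorem HH_zero {η η' : ℝ} (hη : 0 < η) (hη' : 0 < η') (h1 : η ≤ e0) (h2 : η' ≤ e0) {t : ℝ}
    (ht : e0 < t) : HH η η' t = 0 := by
  unfold HH
  rw [FF_of_le hη (h1.trans ht.le), FF_of_le hη' (h2.trans ht.le), sub_self]

/-- **Equality of classes.** -/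
theorem Qf_class {η η' : ℝ} (hη : 0 < η) (hη' : 0 < η') (h1 : η ≤ e0) (h2 : η' ≤ e0) {p : C2}
    (hp : p ∈ Up) (v : C2) : Qf η' p v = Qf η p v + leviForm (lift (HH η η')) p v := by
  rcases near_or_far hp with ⟨γ, hγ, h⟩ | h
  · have e : lift (HH η η') =ᶠ[𝓝 p] fun q => HH η η' (uq γ q) := by
      filter_upwards [h] with q hq using lift_near _ hq.1 hγ hq.2
    have h0 := h.self_of_nhds
    have c : ContDiffAt ℝ ∞ (fun q => HH η η' (uq γ q)) p :=
      (contDiff_HH η η').contDiffAt.comp p (contDiffAt_uq γ hp)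
    rw [leviForm_congr e, Qf_near hη hγ hp h0.2, Qf_near hη' hγ hp h0.2,
      ← leviForm_add (contDiffAt_pot η γ hp) c]
    congr 1
    funext q
    unfold pot HH
    ring
  · have e : lift (HH η η') =ᶠ[𝓝 p] fun _ => 0 := by
      filter_upwards [h] with q hq
        using lift_far _ (fun t ht => HH_zero hη hη' h1 h2 ht) hq.2
    have h0 := h.self_of_nhds
    rw [leviForm_congr e, Qf_far hη h1 hp h0.2, Qf_far hη' h2 hp h0.2]
    have : leviForm (fun _ : C2 => (0 : ℝ)) p v = 0 := by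
      unfold leviForm
      simp
    rw [this, add_zero]

end Pool.Agent.N514.NB
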