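import Pool.Agent.N514.NB.Prof
import Pool.Agent.W711.KC.Quot2
import Pool.Agent.TH997.J115

/-!
# The product of two copies of a compact hyperbolic Riemann surface
-/

set_option autoImplicit false

open scoped Manifold ContDiff Topology ComplexConjugate MatrixGroups UpperHalfPlane
open Set Filter

namespace Pool.Agent.N514.NB

open Pool.Agent.H85R3
open Pool.Agent.W711.KC (jj nn jj_ne im_mob jj_mul nn_mul CG CG_far NN_pos ex ex_apply ex_mem
  HolGroup QQ pr pr_surj continuous_pr pr_eq_iff pr_smul compact_of_cover)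
open Pool.Agent.TH997.KG (mob mob_coe mob_mem mob_mul mob_one mob_inv_left mob_inv_right
  hasDerivAt_mob VV)

/-- the action of `SL(2, ℝ) × SL(2, ℝ)`. -/
noncomputable def act (g h : SL(2, ℝ)) (p : C2) : C2 := (mob g p.1, mob h p.2)

theorem act_mem (g h : SL(2, ℝ)) {p : C2} (hp : p ∈ Up) : act g h p ∈ Up :=
  ⟨mob_mem g hp.1, mob_mem h hp.2⟩

theorem act_act (g h g' h' : SL(2, ℝ)) {p : C2} (hp : p ∈ Up) :
    act g h (act g' h' p) = act (g * g') (h * h') p :=
  Prod.ext (mob_mul g g' hp.1).symm (mob_mul h h' hp.2).symm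

theorem act_one (p : C2) : act 1 1 p = p := Prod.ext (mob_one _) (mob_one _)

theorem contDiffAt_mob' (g : SL(2, ℝ)) {z : ℂ} (hz : 0 < z.im) : ContDiffAt ℂ ω (mob g) z := by
  have hj := jj_ne g hz
  have h1 : ContDiffAt ℂ ω (nn g) z := by
    unfold nn
    fun_prop
  have h2 : ContDiffAt ℂ ω (jj g) z := by
    unfold jj
    fun_prop
  exact h1.div h2 hj

theorem contDiffAt_act (g h : SL(2, ℝ)) {p : C2} (hp : p ∈ Up) : ContDiffAt ℂ ω (act g h) p := by
  have h1 : ContDiffAt ℂ ω (fun p : C2 => p.1) p := contDiffAt_fst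
  have h2 : ContDiffAt ℂ ω (fun p : C2 => p.2) p := contDiffAt_snd
  exact ((contDiffAt_mob' g hp.1).comp p h1).prodMk ((contDiffAt_mob' h hp.2).comp p h2)

theorem fderiv_act (g h : SL(2, ℝ)) {p : C2} (hp : p ∈ Up) (v : C2) :
    fderiv ℂ (act g h) p v = (v.1 / jj g p.1 ^ 2, v.2 / jj h p.2 ^ 2) := by
  have h1 : HasFDerivAt (fun p : C2 => p.1) (ContinuousLinearMap.fst ℂ ℂ ℂ) p := hasFDerivAt_fst
  have h2 : HasFDerivAt (fun p : C2 => p.2) (ContinuousLinearMap.snd ℂ ℂ ℂ) p := hasFDerivAt_snd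
  have k1 : HasFDerivAt (fun p : C2 => mob g p.1) _ p :=
    (hasDerivAt_mob g hp.1).comp_hasFDerivAt p h1
  have k2 : HasFDerivAt (fun p : C2 => mob h p.2) _ p :=
    (hasDerivAt_mob h hp.2).comp_hasFDerivAt p h2
  have k : HasFDerivAt (act g h) _ p := k1.prodMk k2
  rw [k.fderiv]
  refine Prod.ext ?_ ?_
  · simp
    ring
  · simp
    ring

/-- the action as permutations of the domain. -/
noncomputable def actP (g h : SL(2, ℝ)) : Equiv.Perm Up where
  toFun p := ⟨act g h p, act_mem g h p.2⟩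
  invFun p := ⟨act g⁻¹ h⁻¹ p, act_mem _ _ p.2⟩
  left_inv p := by
    apply Subtype.ext
    change act g⁻¹ h⁻¹ (act g h p) = p
    rw [act_act _ _ _ _ p.2, inv_mul_cancel, inv_mul_cancel, act_one]
  right_inv p := by
    apply Subtype.ext
    change act g h (act g⁻¹ h⁻¹ p) = p
    rw [act_act _ _ _ _ p.2, mul_inv_cancel, mul_inv_cancel, act_one]

theorem actP_coe (g h : SL(2, ℝ)) (p : Up) : ((actP g h p : Up) : C2) = act g h p := rfl

theorem actP_mul (g h g' h' : SL(2, ℝ)) : actP g h * actP g' h' = actP (g * g') (h * h') := by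
  ext1 p
  apply Subtype.ext
  exact act_act g h g' h' p.2

theorem actP_one : actP 1 1 = 1 := by
  ext1 p
  apply Subtype.ext
  exact act_one p

/-- The lattice `Γ × Γ`. -/
noncomputable def GG : Subgroup (Equiv.Perm Up) where
  carrier := {σ | ∃ g ∈ CG, ∃ h ∈ CG, σ = actP g h}
  one_mem' := ⟨1, one_mem _, 1, one_mem _, actP_one.symm⟩
  mul_mem' := by
    rintro _ _ ⟨g, hg, h, hh, rfl⟩ ⟨g', hg', h', hh', rfl⟩
    exact ⟨g * g', mul_mem hg hg', h * h', mul_mem hh hh', actP_mul _ _ _ _⟩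
  inv_mem' := by
    rintro _ ⟨g, hg, h, hh, rfl⟩
    refine ⟨g⁻¹, inv_mem hg, h⁻¹, inv_mem hh, ?_⟩
    rw [inv_eq_iff_mul_eq_one, actP_mul, mul_inv_cancel, mul_inv_cancel, actP_one]

/-- the two projections to the upper half plane. -/
def toH1 (p : Up) : ℍ := ⟨p.1.1, p.2.1⟩
def toH2 (p : Up) : ℍ := ⟨p.1.2, p.2.2⟩

theorem toH1_actP (g h : SL(2, ℝ)) (p : Up) : toH1 (actP g h p) = g • toH1 p := by
  apply UpperHalfPlane.ext
  rw [mob_coe]
  rfl

theorem toH2_actP (g h : SL(2, ℝ)) (p : Up) : toH2 (actP g h p) = h • toH2 p := by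
  apply UpperHalfPlane.ext
  rw [mob_coe]
  rfl

theorem continuous_toH1 : Continuous toH1 := by
  rw [UpperHalfPlane.isEmbedding_coe.continuous_iff]
  exact continuous_fst.comp continuous_subtype_val

theorem continuous_toH2 : Continuous toH2 := by
  rw [UpperHalfPlane.isEmbedding_coe.continuous_iff]
  exact continuous_snd.comp continuous_subtype_val

theorem ex_actP_eq (g h : SL(2, ℝ)) {p : C2} (hp : p ∈ Up) : ex (actP g h : Up → Up) p = act g h p :=
  ex_apply _ ⟨p, hp⟩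

theorem ex_actP_eventually (g h : SL(2, ℝ)) {p : C2} (hp : p ∈ Up) :
    ex (actP g h : Up → Up) =ᶠ[𝓝 p] act g h := by
  filter_upwards [Up.isOpen.mem_nhds hp] with q hq using ex_actP_eq g h hq

theorem free_GG : ∀ σ ∈ GG, ∀ p, σ p = p → σ = 1 := by
  rintro _ ⟨g, hg, h, hh, rfl⟩ p hp
  have h1 : g • toH1 p = toH1 p := by rw [← toH1_actP g h, hp]
  have h2 : h • toH2 p = toH2 p := by rw [← toH2_actP g h, hp]
  have h3 : g = 1 := CG_far.free one_pos g hg _ h1
  have h4 : h = 1 := CG_far.free one_pos h hh _ h2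
  rw [h3, h4, actP_one]

theorem pd_GG (K L : Set Up) (hK : IsCompact K) (hL : IsCompact L) :
    Set.Finite {γ : GG | ((fun x => (γ : Equiv.Perm Up) x) '' K ∩ L).Nonempty} := by
  classical
  have := CG_far.properlyDiscontinuous one_pos
  have hf1 := ProperlyDiscontinuousSMul.finite_disjoint_inter_image (Γ := CG)
    (hK.image continuous_toH1) (hL.image continuous_toH1)
  have hf2 := ProperlyDiscontinuousSMul.finite_disjoint_inter_image (Γ := CG)
    (hK.image continuous_toH2) (hL.image continuous_toH2)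
  refine Set.Finite.of_finite_image (f := fun γ : GG => (γ : Equiv.Perm Up)) ?_
    (Subtype.val_injective.injOn)
  refine ((hf1.prod hf2).image (fun q : CG × CG => actP q.1 q.2)).subset ?_
  rintro _ ⟨⟨σ, g, hg, h, hh, rfl⟩, ⟨_, ⟨p, hp, rfl⟩, hpL⟩, rfl⟩
  refine ⟨(⟨g, hg⟩, ⟨h, hh⟩), ⟨?_, ?_⟩, rfl⟩
  · refine ⟨toH1 (actP g h p), ⟨toH1 p, ⟨p, hp, rfl⟩, ?_⟩, ⟨_, hpL, rfl⟩⟩
    exact (toH1_actP g h p).symm
  · refine ⟨toH2 (actP g h p), ⟨toH2 p, ⟨p, hp, rfl⟩, ?_⟩, ⟨_, hpL, rfl⟩⟩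
    exact (toH2_actP g h p).symm

instance : HolGroup GG where
  hol := by
    rintro _ ⟨g, hg, h, hh, rfl⟩ p hp
    exact ((contDiffAt_act g h hp).congr_of_eventuallyEq
      (ex_actP_eventually g h hp)).contDiffWithinAt
  free := free_GG
  pd := pd_GG

/-- The surface `X = (ℍ × ℍ) / (Γ × Γ)`. -/
abbrev XX : Type := QQ GG

theorem compact_XX : CompactSpace XX := by
  obtain ⟨K, hK, hKc⟩ := HS.cocompact NN_pos
  set Ψ : ℍ × ℍ → Up := fun q => ⟨((q.1 : ℂ), (q.2 : ℂ)), q.1.im_pos, q.2.im_pos⟩ with hΨ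
  have hΨc : Continuous Ψ := by
    refine Continuous.subtype_mk ?_ _
    exact (UpperHalfPlane.continuous_coe.comp continuous_fst).prodMk
      (UpperHalfPlane.continuous_coe.comp continuous_snd)
  refine compact_of_cover GG ((hK.prod hK).image hΨc) fun p => ?_
  obtain ⟨g, hg, hgK⟩ := hKc (toH1 p)
  obtain ⟨h, hh, hhK⟩ := hKc (toH2 p)
  refine ⟨actP g h, ⟨g, hg, h, hh, rfl⟩, (g • toH1 p, h • toH2 p), ⟨hgK, hhK⟩, ?_⟩
  apply Subtype.ext
  exact Prod.ext (mob_coe g (toH1 p)) (mob_coe h (toH2 p))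

theorem connected_Up : ConnectedSpace Up := by
  have h1 : IsConnected (Up : Set C2) := by
    refine ⟨⟨(Complex.I, Complex.I), mem_Up.2 (by simp)⟩, ?_⟩
    apply Convex.isPreconnected
    have : (Up : Set C2) = Y1 ⁻¹' (Set.Ioi 0) ∩ Y2 ⁻¹' (Set.Ioi 0) := rfl
    rw [this]
    exact ((convex_Ioi 0).linear_preimage Y1.toLinearMap).inter
      ((convex_Ioi 0).linear_preimage Y2.toLinearMap)
  exact isConnected_iff_connectedSpace.1 h1

theorem connected_XX : ConnectedSpace XX := by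
  have := connected_Up
  exact (pr_surj GG).connectedSpace (continuous_pr GG)

theorem w1_act (g h : SL(2, ℝ)) {p : C2} (hp : p ∈ Up) (v : C2) :
    w1 (act g h p) (fderiv ℂ (act g h) p v) = w1 p v := by
  have h1 : p.1.im ≠ 0 := (mem_Up.1 hp).1.ne'
  have hn : Complex.normSq (jj g p.1) ≠ 0 := by simpa using jj_ne g hp.1
  have him : (mob g p.1).im = p.1.im / Complex.normSq (jj g p.1) := im_mob g hp.1
  rw [fderiv_act g h hp]
  simp only [w1, act]
  rw [him, Complex.normSq_div, map_pow]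
  field_simp

theorem w2_act (g h : SL(2, ℝ)) {p : C2} (hp : p ∈ Up) (v : C2) :
    w2 (act g h p) (fderiv ℂ (act g h) p v) = w2 p v := by
  have h1 : p.2.im ≠ 0 := (mem_Up.1 hp).2.ne'
  have hn : Complex.normSq (jj h p.2) ≠ 0 := by simpa using jj_ne h hp.2
  have him : (mob h p.2).im = p.2.im / Complex.normSq (jj h p.2) := im_mob h hp.2
  rw [fderiv_act g h hp]
  simp only [w2, act]
  rw [him, Complex.normSq_div, map_pow]
  field_simp

/-- `uu` and the hyperbolic distance. -/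
theorem uu_eq_dist (z w : ℍ) : uu ((z : ℂ), (w : ℂ)) = (Real.cosh (dist z w) - 1) / 2 := by
  rw [UpperHalfPlane.cosh_dist]
  simp only [uu]
  have h1 := z.im_pos
  have h2 := w.im_pos
  have h3 : Complex.normSq ((z : ℂ) - (w : ℂ)) = dist (z : ℂ) (w : ℂ) ^ 2 := by
    rw [Complex.dist_eq, Complex.normSq_eq_norm_sq]
  rw [h3]
  change _ / (4 * z.im * w.im) = _
  field_simp
  ring

theorem uu_Up (p : Up) : uu p = (Real.cosh (dist (toH1 p) (toH2 p)) - 1) / 2 :=
  uu_eq_dist (toH1 p) (toH2 p)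

theorem uu_act (g : SL(2, ℝ)) {p : C2} (hp : p ∈ Up) : uu (act g g p) = uu p := by
  have h1 := uu_Up (actP g g ⟨p, hp⟩)
  have h2 := uu_Up ⟨p, hp⟩
  rw [toH1_actP, toH2_actP, dist_smul] at h1
  rw [← h2] at h1
  exact h1

end Pool.Agent.N514.NB
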