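import Pool.Agent.N514.NB.Defs

/-!
# The Levi form: general rules
-/

set_option autoImplicit false

open scoped Manifold ContDiff Topology
open Set Filter

namespace Pool.Agent.N514.NB

/-- second derivative in two directions, from the derivative of the derivative. -/
theorem fderiv_fderiv_apply {φ : C2 → ℝ} {z : C2} (hφ : ContDiffAt ℝ ∞ φ z) (u v : C2) :
    fderiv ℝ (fun w => fderiv ℝ φ w u) z v = fderiv ℝ (fderiv ℝ φ) z v u := by
  have h1 : DifferentiableAt ℝ (fderiv ℝ φ) z :=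
    (hφ.fderiv_right (m := 1) (by norm_cast)).differentiableAt (by simp)
  have h2 := h1.hasFDerivAt.clm_apply (hasFDerivAt_const u z)
  rw [h2.fderiv]
  simp

theorem leviForm_eq {φ : C2 → ℝ} {z : C2} (hφ : ContDiffAt ℝ ∞ φ z) (v : C2) :
    leviForm φ z v = fderiv ℝ (fderiv ℝ φ) z v v +
      fderiv ℝ (fderiv ℝ φ) z (Complex.I • v) (Complex.I • v) := by
  unfold leviForm
  rw [fderiv_fderiv_apply hφ, fderiv_fderiv_apply hφ]

theorem leviForm_congr {φ ψ : C2 → ℝ} {z : C2} (h : φ =ᶠ[𝓝 z] ψ) (v : C2) :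
    leviForm φ z v = leviForm ψ z v := by
  unfold leviForm
  have h1 : ∀ u : C2, (fun w => fderiv ℝ φ w u) =ᶠ[𝓝 z] fun w => fderiv ℝ ψ w u := by
    intro u
    filter_upwards [h.fderiv (𝕜 := ℝ)] with w hw
    rw [hw]
  rw [(h1 v).fderiv_eq, (h1 _).fderiv_eq]

theorem leviForm_add {φ ψ : C2 → ℝ} {z : C2} (hφ : ContDiffAt ℝ ∞ φ z) (hψ : ContDiffAt ℝ ∞ ψ z)
    (v : C2) : leviForm (fun w => φ w + ψ w) z v = leviForm φ z v + leviForm ψ z v := by
  have e1 : ∀ {f : C2 → ℝ}, ContDiffAt ℝ ∞ f z → ∀ᶠ w in 𝓝 z, DifferentiableAt ℝ f w := by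
    intro f hf
    have := (hf.of_le (m := 1) (by norm_cast)).eventually (by simp)
    filter_upwards [this] with w hw
    exact hw.differentiableAt (by simp)
  have e2 : (fderiv ℝ fun w => φ w + ψ w) =ᶠ[𝓝 z] fun w => fderiv ℝ φ w + fderiv ℝ ψ w := by
    filter_upwards [e1 hφ, e1 hψ] with w h1 h2
    exact fderiv_fun_add h1 h2
  have d1 : DifferentiableAt ℝ (fderiv ℝ φ) z :=
    (hφ.fderiv_right (m := 1) (by norm_cast)).differentiableAt (by simp)
  have d2 : DifferentiableAt ℝ (fderiv ℝ ψ) z :=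
    (hψ.fderiv_right (m := 1) (by norm_cast)).differentiableAt (by simp)
  rw [leviForm_eq (hφ.add hψ), leviForm_eq hφ, leviForm_eq hψ, e2.fderiv_eq, fderiv_fun_add d1 d2]
  simp only [add_apply]
  ring

theorem leviForm_const_mul {φ : C2 → ℝ} {z : C2} (hφ : ContDiffAt ℝ ∞ φ z) (c : ℝ)
    (v : C2) : leviForm (fun w => c * φ w) z v = c * leviForm φ z v := by
  have e1 : ∀ᶠ w in 𝓝 z, DifferentiableAt ℝ φ w := by
    have := (hφ.of_le (m := 1) (by norm_cast)).eventually (by simp)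
    filter_upwards [this] with w hw
    exact hw.differentiableAt (by simp)
  have e2 : (fderiv ℝ fun w => c * φ w) =ᶠ[𝓝 z] fun w => c • fderiv ℝ φ w := by
    filter_upwards [e1] with w h1
    exact fderiv_const_mul h1 c
  have d1 : DifferentiableAt ℝ (fderiv ℝ φ) z :=
    (hφ.fderiv_right (m := 1) (by norm_cast)).differentiableAt (by simp)
  rw [leviForm_eq (contDiffAt_const.mul hφ), leviForm_eq hφ, e2.fderiv_eq, fderiv_fun_const_smul d1]
  simp only [smul_apply, smul_eq_mul]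
  ring

/-- **Change of variables** for the Levi form. -/
theorem leviForm_comp {φ : C2 → ℝ} {h : C2 → C2} {z : C2} (hh : ContDiffAt ℂ ω h z)
    (hφ : ContDiffAt ℝ ∞ φ (h z)) (v : C2) :
    leviForm (φ ∘ h) z v = leviForm φ (h z) (fderiv ℂ h z v) := by
  have hhR : ContDiffAt ℝ ω h z := hh.restrict_scalars ℝ
  have hcomp : ContDiffAt ℝ ∞ (φ ∘ h) z := hφ.comp z (hhR.of_le (by simp))
  rw [leviForm_eq hφ]
  unfold leviForm
  -- first derivative near `z`
  have e1 : ∀ᶠ w in 𝓝 z, ∀ u, fderiv ℝ (φ ∘ h) w u = fderiv ℝ φ (h w) (fderiv ℂ h w u) := by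
    have c1 : ∀ᶠ w in 𝓝 z, ContDiffAt ℂ 1 h w := (hh.of_le (by simp)).eventually (by simp)
    have c2 : ∀ᶠ w in 𝓝 z, ContDiffAt ℝ 1 φ (h w) :=
      hh.continuousAt.eventually ((hφ.of_le (by norm_cast)).eventually (by simp))
    filter_upwards [c1, c2] with w hw1 hw2 u
    have d1 : HasFDerivAt h ((fderiv ℂ h w).restrictScalars ℝ) w :=
      (hw1.differentiableAt (by simp)).hasFDerivAt.restrictScalars ℝ
    have d2 : HasFDerivAt φ (fderiv ℝ φ (h w)) (h w) :=
      (hw2.differentiableAt (by simp)).hasFDerivAt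
    rw [(d2.comp w d1).fderiv]
    rfl
  -- second derivative
  have hD : DifferentiableAt ℂ (fderiv ℂ h) z :=
    (hh.fderiv_right (m := 1) (by simp)).differentiableAt (by simp)
  have hφ1 : DifferentiableAt ℝ (fderiv ℝ φ) (h z) :=
    (hφ.fderiv_right (m := 1) (by norm_cast)).differentiableAt (by simp)
  have d1 : HasFDerivAt h ((fderiv ℂ h z).restrictScalars ℝ) z :=
    (hh.differentiableAt (by simp)).hasFDerivAt.restrictScalars ℝ
  have key : ∀ u u' : C2, fderiv ℝ (fun w => fderiv ℝ (φ ∘ h) w u) z u' =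
      fderiv ℝ (fderiv ℝ φ) (h z) (fderiv ℂ h z u') (fderiv ℂ h z u) +
        fderiv ℝ φ (h z) (fderiv ℂ (fderiv ℂ h) z u' u) := by
    intro u u'
    have e2 : (fun w => fderiv ℝ (φ ∘ h) w u) =ᶠ[𝓝 z]
        fun w => fderiv ℝ φ (h w) (fderiv ℂ h w u) := by
      filter_upwards [e1] with w hw using hw u
    rw [e2.fderiv_eq]
    have a1 : HasFDerivAt (fun w => fderiv ℝ φ (h w))
        ((fderiv ℝ (fderiv ℝ φ) (h z)).comp ((fderiv ℂ h z).restrictScalars ℝ)) z :=
      hφ1.hasFDerivAt.comp z d1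
    have a2 : HasFDerivAt (fun w => fderiv ℂ h w u)
        (((fderiv ℂ (fderiv ℂ h) z).flip u).restrictScalars ℝ) z := by
      have := (hD.hasFDerivAt.clm_apply (hasFDerivAt_const u z)).restrictScalars ℝ
      have h0 : (fderiv ℂ h z).comp (0 : C2 →L[ℂ] C2) + (fderiv ℂ (fderiv ℂ h) z).flip u =
          (fderiv ℂ (fderiv ℂ h) z).flip u := by
        rw [ContinuousLinearMap.comp_zero, zero_add]
      rw [h0] at this
      exact this
    rw [(a1.clm_apply a2).fderiv]
    simp [add_comm]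
  rw [key, key]
  have l1 : fderiv ℂ h z (Complex.I • v) = Complex.I • fderiv ℂ h z v := map_smul _ _ _
  have l2 : fderiv ℂ (fderiv ℂ h) z (Complex.I • v) (Complex.I • v) =
      - fderiv ℂ (fderiv ℂ h) z v v := by
    rw [map_smul (fderiv ℂ (fderiv ℂ h) z), smul_apply, map_smul, smul_smul,
      Complex.I_mul_I, neg_one_smul]
  rw [l1, l2, map_neg]
  ring

/-- The Levi form of a function of a real function. -/
theorem leviForm_comp_real {F : ℝ → ℝ} {f : C2 → ℝ} {z : C2} (hf : ContDiffAt ℝ ∞ f z)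
    (hF : ContDiffAt ℝ ∞ F (f z)) (v : C2) :
    leviForm (fun w => F (f w)) z v = deriv F (f z) * leviForm f z v +
      deriv (deriv F) (f z) * (fderiv ℝ f z v ^ 2 + fderiv ℝ f z (Complex.I • v) ^ 2) := by
  have hd : ∀ u : C2, fderiv ℝ (fun w => fderiv ℝ (fun w => F (f w)) w u) z u =
      deriv F (f z) * fderiv ℝ (fun w => fderiv ℝ f w u) z u +
        deriv (deriv F) (f z) * fderiv ℝ f z u ^ 2 := by
    intro u
    have c1 : ∀ᶠ w in 𝓝 z, ContDiffAt ℝ 1 f w :=
      (hf.of_le (m := 1) (by norm_cast)).eventually (by simp)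
    have c2 : ∀ᶠ w in 𝓝 z, ContDiffAt ℝ 1 F (f w) :=
      hf.continuousAt.eventually ((hF.of_le (m := 1) (by norm_cast)).eventually (by simp))
    have e : (fun w => fderiv ℝ (fun w => F (f w)) w u) =ᶠ[𝓝 z]
        fun w => deriv F (f w) * fderiv ℝ f w u := by
      filter_upwards [c1, c2] with w h1 h2
      have d1 := (h1.differentiableAt (by simp)).hasFDerivAt
      have d2 := (h2.differentiableAt (by simp)).hasDerivAt
      have d3 : HasFDerivAt (fun w => F (f w)) _ w := d2.comp_hasFDerivAt w d1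
      rw [d3.fderiv]
      simp
    rw [e.fderiv_eq]
    have hF1 : DifferentiableAt ℝ (deriv F) (f z) := by
      have h1 : ContDiffAt ℝ 1 (fderiv ℝ F) (f z) := hF.fderiv_right (m := 1) (by norm_cast)
      have h2 : DifferentiableAt ℝ (fderiv ℝ F) (f z) := h1.differentiableAt (by simp)
      exact h2.clm_apply (differentiableAt_const (1 : ℝ))
    have hf1 : DifferentiableAt ℝ (fun w => fderiv ℝ f w u) z := by
      have h1 : DifferentiableAt ℝ (fderiv ℝ f) z :=
        (hf.fderiv_right (m := 1) (by norm_cast)).differentiableAt (by simp)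
      exact h1.clm_apply (differentiableAt_const u)
    have d0 := (hf.differentiableAt (by simp)).hasFDerivAt
    have d1 := hF1.hasDerivAt.comp_hasFDerivAt z d0
    have d2 := hf1.hasFDerivAt
    have d3 := d1.mul d2
    have d4 : HasFDerivAt (fun w => deriv F (f w) * fderiv ℝ f w u) _ z := d3
    rw [d4.fderiv]
    simp
    ring
  unfold leviForm
  rw [hd, hd]
  ring

end Pool.Agent.N514.NB
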