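import Pool.Agent.TH997.J115

/-!
# Stokes' theorem on the quotient curve
-/

set_option autoImplicit false

open scoped Manifold ContDiff Topology ComplexConjugate MatrixGroups UpperHalfPlane
open MeasureTheory Set Filter

namespace Pool.Agent.N514.NB

open Pool.Agent.W711.KC (jj nn jj_ne)
open Pool.Agent.TH598.KG (Cutoff d1)
open Pool.Agent.TH997.KG (VV isOpen_VV mob base_stokes_aux)

variable {Γ : Subgroup SL(2, ℝ)}

/-- a function times the cutoff. -/
theorem contDiff_cut {φ : ℂ → ℝ} (hφ : Cutoff Γ φ) {β : ℂ → ℂ} (hβ : ContDiffOn ℝ 1 β VV) :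
    ContDiff ℝ 1 (fun z => (φ z : ℂ) * β z) := by
  rw [contDiff_iff_contDiffAt]
  intro z
  by_cases hz : z ∈ tsupport φ
  · have h1 : ContDiff ℝ 1 (fun z => (φ z : ℂ)) :=
      (Complex.ofRealCLM.contDiff.comp hφ.smooth).of_le (by norm_cast)
    exact h1.contDiffAt.mul (hβ.contDiffAt (isOpen_VV.mem_nhds (hφ.supp hz)))
  · have h1 := notMem_tsupport_iff_eventuallyEq.1 hz
    have h2 : (fun z => (φ z : ℂ) * β z) =ᶠ[𝓝 z] fun _ => 0 := by
      filter_upwards [h1] with w hw
      rw [hw]
      simp
    exact contDiffAt_const.congr_of_eventuallyEq h2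

theorem compact_cut {φ : ℂ → ℝ} (hφ : Cutoff Γ φ) (β : ℂ → ℂ) :
    HasCompactSupport (fun z => (φ z : ℂ) * β z) := by
  apply hφ.compact.mono
  intro z hz
  rw [Function.mem_support] at hz ⊢
  intro h
  apply hz
  rw [h]
  simp

theorem integrableOn_cut {φ : ℂ → ℝ} (hφ : Cutoff Γ φ) {G : ℂ → ℂ} (hG : ContinuousOn G VV)
    (hG0 : ∀ z, z ∉ tsupport φ → G z = 0) : IntegrableOn G VV := by
  have h1 : IntegrableOn G (tsupport φ) :=
    (hG.mono hφ.supp).integrableOn_compact hφ.compact.isCompact
  have h2 : Integrable G := by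
    rw [← integrableOn_iff_integrable_of_support_subset (s := tsupport φ)]
    · exact h1
    · intro z hz
      by_contra h
      exact hz (hG0 z h)
  exact h2.integrableOn

/-- **Stokes' theorem.** -/
theorem stokes [ProperlyDiscontinuousSMul Γ ℍ] {φ : ℂ → ℝ} (hφ : Cutoff Γ φ) {β : ℂ → ℂ}
    (hβ : ContDiffOn ℝ 1 β VV)
    (heq : ∀ g ∈ Γ, ∀ z ∈ VV, β (mob g z) = conj (jj g z) ^ 2 * β z) :
    ∫ z in VV, (φ z : ℂ) * d1 β z = 0 := by
  have hs := base_stokes_aux hφ hβ.continuousOn heq
  set G : ℂ → ℂ := fun z => (φ z : ℂ) * β z with hG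
  have hGc : ContDiff ℝ 1 G := contDiff_cut hφ hβ
  have hGs : HasCompactSupport G := compact_cut hφ β
  have hGd : Continuous (fderiv ℝ G) := hGc.continuous_fderiv (by simp)
  have hGfs : HasCompactSupport (fderiv ℝ G) := hGs.fderiv ℝ
  have hGv : ∀ v : ℂ, Integrable (fun z => fderiv ℝ G z v) := by
    intro v
    refine Continuous.integrable_of_hasCompactSupport (by fun_prop) ?_
    exact hGfs.comp_left (g := fun A : ℂ →L[ℝ] ℂ => A v) (by simp)
  -- integration by parts
  have h0 : ∀ v : ℂ, ∫ z, fderiv ℝ G z v = 0 := by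
    intro v
    have h1 := integral_mul_fderiv_eq_neg_fderiv_mul_of_integrable (μ := (volume : Measure ℂ))
      (f := fun _ : ℂ => (1 : ℂ)) (g := G) (v := v) (by simp)
      (by simpa using hGv v) (by simpa using hGc.continuous.integrable_of_hasCompactSupport hGs)
      (fun _ _ => differentiableAt_const _)
      (fun z _ => (hGc.differentiable (by simp)) z)
    simpa using h1
  have h1 : ∫ z, d1 G z = 0 := by
    unfold d1
    rw [integral_const_mul, integral_sub (hGv _) ((hGv _).const_mul _), integral_const_mul, h0, h0]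
    simp
  -- vanishing outside of the half plane
  have h2 : ∫ z in VV, d1 G z = 0 := by
    rw [setIntegral_eq_integral_of_forall_compl_eq_zero, h1]
    intro z hz
    have h3 : z ∉ tsupport φ := fun h => hz (hφ.supp h)
    have h4 : G =ᶠ[𝓝 z] fun _ => 0 := by
      filter_upwards [notMem_tsupport_iff_eventuallyEq.1 h3] with w hw
      rw [hG]
      simp only
      rw [hw]
      simp
    unfold d1
    rw [h4.fderiv_eq]
    simp
  have hφc : ContDiff ℝ 1 (fun z => (φ z : ℂ)) :=
    (Complex.ofRealCLM.contDiff.comp hφ.smooth).of_le (by norm_cast)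
  -- product rule
  have h5 : ∀ z ∈ VV, d1 G z = (φ z : ℂ) * d1 β z + β z * d1 (fun w => (φ w : ℂ)) z := by
    intro z hz
    have a1 : HasFDerivAt (fun w => (φ w : ℂ)) _ z :=
      ((hφc.differentiable (by simp)) z).hasFDerivAt
    have a2 : HasFDerivAt β _ z :=
      ((hβ.contDiffAt (isOpen_VV.mem_nhds hz)).differentiableAt (by simp)).hasFDerivAt
    have a3 : fderiv ℝ (fun z => (φ z : ℂ) * β z) z = _ := (a1.mul a2).fderiv
    unfold d1
    rw [hG, a3]
    simp
    ring
  have h6 : ∫ z in VV, d1 G z = (∫ z in VV, (φ z : ℂ) * d1 β z) +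
      ∫ z in VV, β z * d1 (fun w => (φ w : ℂ)) z := by
    rw [← integral_add]
    · exact setIntegral_congr_fun isOpen_VV.measurableSet h5
    · refine integrableOn_cut hφ ((hφc.continuous.continuousOn).mul ?_) fun z hz => ?_
      · have c1 : ContinuousOn (fderiv ℝ β) VV :=
          hβ.continuousOn_fderiv_of_isOpen isOpen_VV (by simp)
        unfold d1
        have c2 : ∀ v : ℂ, ContinuousOn (fun z => fderiv ℝ β z v) VV := fun v =>
          c1.clm_apply continuousOn_const
        exact continuousOn_const.mul ((c2 1).sub (continuousOn_const.mul (c2 Complex.I)))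
      · rw [image_eq_zero_of_notMem_tsupport hz]
        simp
    · refine integrableOn_cut hφ ((hβ.continuousOn).mul ?_) fun z hz => ?_
      · have c1 : Continuous (fderiv ℝ (fun w => (φ w : ℂ))) := hφc.continuous_fderiv (by simp)
        unfold d1
        fun_prop
      · have h7 : (fun w => (φ w : ℂ)) =ᶠ[𝓝 z] fun _ => 0 := by
          filter_upwards [notMem_tsupport_iff_eventuallyEq.1 hz] with w hw
          rw [hw]
          simp
        unfold d1
        rw [h7.fderiv_eq]
        simp
  rw [h2, hs, add_zero] at h6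
  exact h6.symm

/-- positivity. -/
theorem zero_of {φ : ℂ → ℝ} (hφ : Cutoff Γ φ) {F : ℂ → ℝ} (hF : ContinuousOn F VV)
    (hnn : ∀ z ∈ VV, 0 ≤ F z) (h : ∫ z in VV, φ z * F z = 0) : ∀ z ∈ VV, φ z * F z = 0 := by
  have hc : Continuous (fun z => φ z * F z) := by
    rw [continuous_iff_continuousAt]
    intro z
    by_cases hz : z ∈ tsupport φ
    · exact (hφ.smooth.continuous.continuousAt).mul
        (hF.continuousAt (isOpen_VV.mem_nhds (hφ.supp hz)))
    · have h2 : (fun z => φ z * F z) =ᶠ[𝓝 z] fun _ => 0 := by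
        filter_upwards [notMem_tsupport_iff_eventuallyEq.1 hz] with w hw
        rw [hw]
        simp
      exact continuousAt_const.congr h2.symm
  have hs : HasCompactSupport (fun z => φ z * F z) := by
    apply hφ.compact.mono
    intro z hz
    rw [Function.mem_support] at hz ⊢
    intro h
    apply hz
    rw [h, zero_mul]
  have hn : 0 ≤ fun z => φ z * F z := by
    intro z
    by_cases hz : z ∈ VV
    · exact mul_nonneg (hφ.nonneg z) (hnn z hz)
    · have : φ z = 0 := by
        by_contra h1
        exact hz (hφ.supp (subset_tsupport _ h1))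
      change 0 ≤ φ z * F z
      rw [this, zero_mul]
  rw [setIntegral_eq_integral_of_forall_compl_eq_zero] at h
  · intro z _
    by_contra hne
    have := hc.integral_pos_of_hasCompactSupport_nonneg_nonzero (μ := volume) hs hn hne
    rw [h] at this
    exact lt_irrefl _ this
  · intro z hz
    have : φ z = 0 := by
      by_contra h1
      exact hz (hφ.supp (subset_tsupport _ h1))
    rw [this, zero_mul]

/-- the cutoff is not zero. -/
theorem exists_pos {φ : ℂ → ℝ} (hφ : Cutoff Γ φ) : ∃ z ∈ VV, φ z ≠ 0 := by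
  by_contra hcon
  push Not at hcon
  have h := hφ.sum UpperHalfPlane.I
  rw [tsum_congr (fun g : Γ => hcon _ ((g : SL(2, ℝ)) • UpperHalfPlane.I : ℍ).im_pos)] at h
  simp at h

end Pool.Agent.N514.NB
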