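import Pool.Agent.N514.NB.Desc
import Pool.Agent.N514.NB.Stokes

/-!
# There is no smooth semipositive form in the class
-/

set_option autoImplicit false

open scoped Manifold ContDiff Topology ComplexConjugate MatrixGroups UpperHalfPlane
open Set Filter MeasureTheory

namespace Pool.Agent.N514.NB

open Pool.Agent.H85R3
open Pool.Agent.W711.KC (jj nn jj_ne CG CG_far ex ex_apply ex_mem HolGroup QQ pr pr_surj
  continuous_pr pr_eq_iff pr_smul chart_self_mem pr_chart_self atlas_target atlas_symm chart_mem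
  pr_chart deck deck_symm local_pr local_pr')
open Pool.Agent.TH598.KG (Cutoff d1)
open Pool.Agent.TH997.KG (VV isOpen_VV mob mob_mem exists_cutoff)

/-- the diagonal. -/
def dg (z : ℂ) : C2 := (z, z)

noncomputable def dgL : ℂ →L[ℝ] C2 := (ContinuousLinearMap.id ℝ ℂ).prod (ContinuousLinearMap.id ℝ ℂ)

theorem dg_mem {z : ℂ} (hz : z ∈ VV) : dg z ∈ Up := ⟨hz, hz⟩

section

variable {f : C2 → ℝ}

/-- the second derivative. -/
noncomputable def A2 (f : C2 → ℝ) (z : ℂ) (v w : C2) : ℝ := fderiv ℝ (fderiv ℝ f) (dg z) v w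

noncomputable def Pz (f : C2 → ℝ) (z : ℂ) (w : C2) : ℝ :=
  A2 f z (1, 1) w + A2 f z (Complex.I, Complex.I) (Complex.I • w)

noncomputable def bet (f : C2 → ℝ) (c : C2) (z : ℂ) : ℂ :=
  (1 / 2) * (((fderiv ℝ f (dg z) c : ℝ) : ℂ) +
    Complex.I * ((fderiv ℝ f (dg z) (Complex.I • c) : ℝ) : ℂ))

theorem contDiffAt_fderiv (hf : ∀ p ∈ Up, ContDiffAt ℝ ∞ f p) {p : C2} (hp : p ∈ Up) :
    ContDiffAt ℝ ∞ (fderiv ℝ f) p := (hf p hp).fderiv_right (m := ∞) (by simp)

theorem hasFDerivAt_term (hf : ∀ p ∈ Up, ContDiffAt ℝ ∞ f p) {z : ℂ} (hz : z ∈ VV) (c : C2) :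
    HasFDerivAt (fun z => ((fderiv ℝ f (dg z) c : ℝ) : ℂ))
      (Complex.ofRealCLM.comp (((fderiv ℝ (fderiv ℝ f) (dg z)).comp dgL).flip c)) z := by
  have h1 : HasFDerivAt (fderiv ℝ f) (fderiv ℝ (fderiv ℝ f) (dg z)) (dgL z) :=
    ((contDiffAt_fderiv hf (dg_mem hz)).differentiableAt (by simp)).hasFDerivAt
  have h2 : HasFDerivAt (fun z => fderiv ℝ f (dg z)) ((fderiv ℝ (fderiv ℝ f) (dg z)).comp dgL) z :=
    h1.comp z dgL.hasFDerivAt
  have h3 := h2.clm_apply (hasFDerivAt_const c z)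
  have h4 := (Complex.ofRealCLM.hasFDerivAt (x := fderiv ℝ f (dg z) c)).comp z h3
  refine h4.congr_fderiv ?_
  ext v
  simp

theorem d1_bet (hf : ∀ p ∈ Up, ContDiffAt ℝ ∞ f p) {z : ℂ} (hz : z ∈ VV) (c : C2) :
    d1 (bet f c) z = (1 / 4) * ((Pz f z c : ℂ) + Complex.I * (Pz f z (Complex.I • c) : ℂ)) := by
  have h1 := ((hasFDerivAt_term hf hz c).add
    ((hasFDerivAt_term hf hz (Complex.I • c)).const_mul Complex.I)).const_mul (1 / 2 : ℂ)
  have h2 : fderiv ℝ (bet f c) z = _ := h1.fderiv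
  unfold d1
  rw [h2]
  have e : Complex.I • Complex.I • c = -c := by
    rw [smul_smul, Complex.I_mul_I, neg_one_smul]
  have e1 : dgL 1 = (1, 1) := rfl
  have e2 : dgL Complex.I = (Complex.I, Complex.I) := rfl
  simp only [Pz, A2, e, map_neg]
  simp [e1, e2]
  linear_combination (-1 / 4 : ℂ) * (fderiv ℝ (fderiv ℝ f) (dg z) (Complex.I, Complex.I) (Complex.I • c) : ℂ) *
    Complex.I_mul_I

theorem contDiffOn_bet (hf : ∀ p ∈ Up, ContDiffAt ℝ ∞ f p) (c : C2) :
    ContDiffOn ℝ 1 (bet f c) VV := by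
  intro z hz
  apply ContDiffAt.contDiffWithinAt
  have h1 : ContDiffAt ℝ 1 (fderiv ℝ f) (dg z) :=
    (contDiffAt_fderiv hf (dg_mem hz)).of_le (by norm_cast)
  have h2 : ContDiffAt ℝ 1 dg z := dgL.contDiff.contDiffAt
  have h3 : ∀ c : C2, ContDiffAt ℝ 1 (fun z => ((fderiv ℝ f (dg z) c : ℝ) : ℂ)) z := fun c =>
    Complex.ofRealCLM.contDiff.contDiffAt.comp z ((h1.comp z h2).clm_apply contDiffAt_const)
  exact contDiffAt_const.mul ((h3 c).add (contDiffAt_const.mul (h3 _)))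

theorem bet_mob (hf : ∀ p ∈ Up, ContDiffAt ℝ ∞ f p) (hi : InvF f) (c : C2) {g : SL(2, ℝ)}
    (hg : g ∈ CG) {z : ℂ} (hz : z ∈ VV) : bet f c (mob g z) = conj (jj g z) ^ 2 * bet f c z := by
  have hj := jj_ne g hz
  set lam : ℂ := 1 / jj g z ^ 2 with hlam
  have h0 : ∀ v : C2, fderiv ℝ f (dg z) v = fderiv ℝ f (dg (mob g z)) (lam • v) := by
    intro v
    have e : f =ᶠ[𝓝 (dg z)] f ∘ act g g := by
      filter_upwards [Up.isOpen.mem_nhds (dg_mem hz)] with q hq using (hi g hg g hg q hq).symm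
    have d1 : HasFDerivAt (act g g) ((fderiv ℂ (act g g) (dg z)).restrictScalars ℝ) (dg z) :=
      ((contDiffAt_act g g (dg_mem hz)).differentiableAt (by simp)).hasFDerivAt.restrictScalars ℝ
    have d2 : HasFDerivAt f (fderiv ℝ f (act g g (dg z))) (act g g (dg z)) :=
      ((hf _ (act_mem g g (dg_mem hz))).differentiableAt (by simp)).hasFDerivAt
    rw [e.fderiv_eq, (d2.comp (dg z) d1).fderiv]
    change fderiv ℝ f (dg (mob g z)) (fderiv ℂ (act g g) (dg z) v) = _
    rw [fderiv_act g g (dg_mem hz)]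
    congr 1
    refine Prod.ext ?_ ?_
    · simp [hlam, dg]
      ring
    · simp [hlam, dg]
      ring
  have hlin : ∀ v : C2, fderiv ℝ f (dg (mob g z)) (lam • v) =
      lam.re * fderiv ℝ f (dg (mob g z)) v + lam.im * fderiv ℝ f (dg (mob g z)) (Complex.I • v) := by
    intro v
    have : lam • v = lam.re • v + lam.im • (Complex.I • v) := by
      conv_lhs => rw [← Complex.re_add_im lam]
      rw [add_smul, mul_smul]
      rfl
    rw [this, map_add, map_smul, map_smul]
    rfl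
  have hl2 : fderiv ℝ f (dg (mob g z)) (Complex.I • Complex.I • c) =
      - fderiv ℝ f (dg (mob g z)) c := by
    rw [smul_smul, Complex.I_mul_I, neg_one_smul, map_neg]
  have key : bet f c z = conj lam * bet f c (mob g z) := by
    unfold bet
    rw [h0 c, h0 (Complex.I • c), hlin c, hlin (Complex.I • c), hl2]
    have e1 : conj lam = (lam.re : ℂ) - (lam.im : ℂ) * Complex.I := by
      apply Complex.ext <;> simp
    rw [e1]
    push_cast
    linear_combination (1 / 2 : ℂ) * (lam.im : ℂ) *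
      ((fderiv ℝ f (dg (mob g z)) (Complex.I • c) : ℝ) : ℂ) * Complex.I_mul_I
  rw [key, hlam]
  have hj' : conj (jj g z) ≠ 0 := by simpa using hj
  rw [map_div₀, map_one, map_pow]
  field_simp

theorem contOn_Pz (hf : ∀ p ∈ Up, ContDiffAt ℝ ∞ f p) (w : C2) :
    ContinuousOn (fun z => Pz f z w) VV := by
  intro z hz
  apply ContinuousAt.continuousWithinAt
  have h1 : ContDiffAt ℝ ∞ (fderiv ℝ (fderiv ℝ f)) (dg z) :=
    (contDiffAt_fderiv hf (dg_mem hz)).fderiv_right (m := ∞) (by simp)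
  have h2 : ContinuousAt dg z := dgL.continuous.continuousAt
  have h3 : ContinuousAt (fun z => fderiv ℝ (fderiv ℝ f) (dg z)) z :=
    ContinuousAt.comp (g := fderiv ℝ (fderiv ℝ f)) h1.continuousAt h2
  have h4 : ∀ v w : C2, ContinuousAt (fun z => A2 f z v w) z := fun v w =>
    (h3.clm_apply continuousAt_const).clm_apply continuousAt_const
  exact (h4 _ _).add (h4 _ _)

/-- **Stokes' theorem**, for the derivatives of an invariant function along the diagonal. -/
theorem integral_Pz (hf : ∀ p ∈ Up, ContDiffAt ℝ ∞ f p) (hi : InvF f) {φ : ℂ → ℝ}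
    (hφ : Cutoff CG φ) (c : C2) : ∫ z in VV, φ z * Pz f z c = 0 := by
  have := Pool.Agent.W711.KC.CG_far.properlyDiscontinuous one_pos
  have h1 := stokes hφ (contDiffOn_bet hf c) (fun g hg z hz => bet_mob hf hi c hg hz)
  have h2 : ∫ z in VV, (φ z : ℂ) * d1 (bet f c) z =
      ∫ z in VV, (φ z : ℂ) * ((1 / 4) * ((Pz f z c : ℂ) + Complex.I * (Pz f z (Complex.I • c) : ℂ))) := by
    exact setIntegral_congr_fun isOpen_VV.measurableSet fun z hz => by rw [d1_bet hf hz]
  rw [h2] at h1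
  have hint : IntegrableOn (fun z => (φ z : ℂ) * ((1 / 4) * ((Pz f z c : ℂ) +
      Complex.I * (Pz f z (Complex.I • c) : ℂ)))) VV := by
    refine integrableOn_cut hφ ?_ fun z hz => ?_
    · have c1 := Complex.continuous_ofReal.comp_continuousOn (contOn_Pz hf c)
      have c2 := Complex.continuous_ofReal.comp_continuousOn (contOn_Pz hf (Complex.I • c))
      have c3 : Continuous (fun z => (φ z : ℂ)) :=
        Complex.continuous_ofReal.comp hφ.smooth.continuous
      exact c3.continuousOn.mul (continuousOn_const.mul (c1.add (continuousOn_const.mul c2)))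
    · rw [image_eq_zero_of_notMem_tsupport hz]
      simp
  have h3 := (Complex.reCLM.integral_comp_comm hint).symm
  rw [h1] at h3
  have h4 : ∫ z in VV, Complex.reCLM ((φ z : ℂ) * ((1 / 4) * ((Pz f z c : ℂ) +
      Complex.I * (Pz f z (Complex.I • c) : ℂ)))) = ∫ z in VV, (1 / 4) * (φ z * Pz f z c) := by
    refine setIntegral_congr_fun isOpen_VV.measurableSet fun z hz => ?_
    simp
    ring
  rw [h4, integral_const_mul] at h3
  have h5 : Complex.reCLM (0 : ℂ) = 0 := rfl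
  rw [h5] at h3
  linarith

theorem lin_zero {a b : ℝ} (h : ∀ t : ℝ, 0 ≤ t * a + b) : a = 0 := by
  by_contra hne
  have h1 := h (-(b + 1) / a)
  rw [div_mul_cancel₀ _ hne] at h1
  linarith

theorem mm_dg {z : ℂ} (hz : z ∈ VV) (v : C2) :
    mm (dg z) v = Complex.normSq (v.1 - v.2) / z.im ^ 2 := by
  have h1 : z.im ≠ 0 := ne_of_gt hz
  simp only [mm, dg, Complex.normSq_apply, Complex.sub_re, Complex.sub_im, Complex.conj_re,
    Complex.conj_im, Complex.div_ofReal_re, Complex.div_ofReal_im, Complex.mul_re, Complex.mul_im]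
  field_simp
  ring

theorem A2_symm (hf : ∀ p ∈ Up, ContDiffAt ℝ ∞ f p) {z : ℂ} (hz : z ∈ VV) (v w : C2) :
    A2 f z v w = A2 f z w v := by
  have h := (hf _ (dg_mem hz)).isSymmSndFDerivAt (by
    rw [minSmoothness_of_isRCLikeNormedField]
    norm_cast)
  exact h.eq v w

theorem leviForm_dg (hf : ∀ p ∈ Up, ContDiffAt ℝ ∞ f p) {z : ℂ} (hz : z ∈ VV) (v : C2) :
    leviForm f (dg z) v = A2 f z v v + A2 f z (Complex.I • v) (Complex.I • v) :=
  leviForm_eq (hf _ (dg_mem hz)) v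

theorem levi_expand (hf : ∀ p ∈ Up, ContDiffAt ℝ ∞ f p) {z : ℂ} (hz : z ∈ VV) (t : ℝ) (w : C2) :
    leviForm f (dg z) (t • (1, 1) + w) = t ^ 2 * Pz f z (1, 1) + 2 * t * Pz f z w +
      leviForm f (dg z) w := by
  rw [leviForm_dg hf hz, leviForm_dg hf hz]
  have e : Complex.I • (t • ((1, 1) : C2) + w) = t • (Complex.I, Complex.I) + Complex.I • w := by
    rw [smul_add, smul_comm]
    congr 2
    simp
  have e2 : Complex.I • ((1, 1) : C2) = (Complex.I, Complex.I) := by simp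
  rw [e]
  unfold Pz
  rw [e2]
  have s1 := A2_symm hf hz w (1, 1)
  have s2 := A2_symm hf hz (Complex.I • w) (Complex.I, Complex.I)
  unfold A2 at *
  simp only [map_add, map_smul, add_apply, smul_apply, smul_eq_mul]
  rw [s1, s2]
  ring

/-- **The obstruction.** -/
theorem obstruction (hf : ∀ p ∈ Up, ContDiffAt ℝ ∞ f p) (hi : InvF f) (k : ℝ)
    (hT : ∀ z ∈ VV, ∀ v : C2, 0 ≤ w1 (dg z) v - w2 (dg z) v + k * mm (dg z) v +
      leviForm f (dg z) v) : False := by
  obtain ⟨φ, hφ⟩ := exists_cutoff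
  -- the restriction to the diagonal
  have hP : ∀ z ∈ VV, 0 ≤ Pz f z (1, 1) := by
    intro z hz
    have h1 := hT z hz (1, 1)
    have h2 := levi_expand hf hz 1 0
    have h3 : leviForm f (dg z) 0 = 0 := by
      rw [leviForm_dg hf hz]
      simp [A2]
    have h4 : Pz f z 0 = 0 := by simp [Pz, A2]
    rw [h3, h4, one_smul, add_zero] at h2
    rw [h2, mm_dg hz] at h1
    simp [w1, w2, dg] at h1
    exact h1
  have h0 := zero_of hφ (contOn_Pz hf (1, 1)) hP (integral_Pz hf hi hφ (1, 1))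
  -- the mixed term
  have hmix : ∀ z ∈ VV, φ z * Pz f z (0, 1) = φ z * (1 / z.im ^ 2) := by
    intro z hz
    by_cases hz0 : φ z = 0
    · rw [hz0, zero_mul, zero_mul]
    · have h1 : Pz f z (1, 1) = 0 := by
        rcases mul_eq_zero.1 (h0 z hz) with h | h
        · exact absurd h hz0
        · exact h
      have hy : z.im ≠ 0 := ne_of_gt hz
      have h2 : ∀ t : ℝ, 0 ≤ t * (2 * (Pz f z (0, 1) - 1 / z.im ^ 2)) +
          (-(1 / z.im ^ 2) + k * (1 / z.im ^ 2) + leviForm f (dg z) (0, 1)) := by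
        intro t
        have h3 := hT z hz (t • (1, 1) + (0, 1))
        rw [levi_expand hf hz, h1, mm_dg hz] at h3
        refine h3.trans (le_of_eq ?_)
        simp only [w1, w2, dg, Complex.normSq_apply, Prod.smul_mk, Prod.mk_add_mk]
        simp
        field_simp
        ring
      have h3 := lin_zero h2
      have h4 : Pz f z (0, 1) = 1 / z.im ^ 2 := by linarith
      rw [h4]
  have h2 : ∫ z in VV, φ z * (1 / z.im ^ 2) = 0 := by
    rw [← integral_Pz hf hi hφ (0, 1)]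
    exact setIntegral_congr_fun isOpen_VV.measurableSet fun z hz => (hmix z hz).symm
  have h3 := zero_of hφ (F := fun z => 1 / z.im ^ 2) ?_ (fun z _ => by positivity) h2
  · obtain ⟨z, hz, hz0⟩ := exists_pos hφ
    have h4 := h3 z hz
    have hy : 0 < z.im := hz
    have h5 : 0 < 1 / z.im ^ 2 := by positivity
    rcases mul_eq_zero.1 h4 with h | h
    · exact hz0 h
    · rw [h] at h5
      exact lt_irrefl _ h5
  · refine continuousOn_const.div (Complex.continuous_im.continuousOn.pow 2) fun z hz => ?_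
    have hy : 0 < z.im := hz
    positivity

end

/-! ### From the quotient to the half planes -/

open Classical in
/-- the pull back of a function. -/
noncomputable def pull (u : XX → ℝ) (p : C2) : ℝ := if h : p ∈ Up then u (pr GG ⟨p, h⟩) else 0

theorem pull_eq (u : XX → ℝ) {p : C2} (hp : p ∈ Up) : pull u p = u (pr GG ⟨p, hp⟩) := by
  unfold pull
  rw [dif_pos hp]

theorem invF_pull (u : XX → ℝ) : InvF (pull u) := by
  intro g hg h hh p hp
  rw [pull_eq u hp, pull_eq u (act_mem g h hp)]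
  congr 1
  have hm : actP g h ∈ GG := ⟨g, hg, h, hh, rfl⟩
  exact pr_smul hm ⟨p, hp⟩

theorem dF_pull (u : XX → ℝ) : dF (pull u) = u := by
  funext x
  unfold dF
  rw [pull_eq u (chart_self_mem x), pr_chart_self]

theorem contDiffAt_pull {u : XX → ℝ} (hu : ContMDiff 𝓘(ℝ, C2) 𝓘(ℝ, ℝ) ∞ u) :
    ∀ p ∈ Up, ContDiffAt ℝ ∞ (pull u) p := by
  intro p hp
  set x : XX := pr GG ⟨p, hp⟩ with hx
  have h1 := (contMDiffAt_iff.1 (hu x)).2
  have h2 : ContDiffAt ℝ ∞ (u ∘ (chartAt C2 x).symm) (chartAt C2 x x) := by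
    rw [← contDiffWithinAt_univ]
    simpa [chartAt_self_eq] using h1
  obtain ⟨γ, hγ, h3, h4⟩ := local_pr' (chart_mem_atlas C2 x) ⟨p, hp⟩ (mem_chart_source C2 x)
  have h3' : ex γ p = chartAt C2 x x := h3
  have h5 : ContDiffAt ℝ ∞ (ex (γ : Up → Up)) p :=
    (((HolGroup.hol γ hγ).contDiffAt (Up.isOpen.mem_nhds hp)).restrict_scalars ℝ).of_le (by simp)
  have h6 : ContDiffAt ℝ ∞ ((u ∘ (chartAt C2 x).symm) ∘ ex (γ : Up → Up)) p := by
    have : ContDiffAt ℝ ∞ (u ∘ (chartAt C2 x).symm) (ex (γ : Up → Up) p) := by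
      rw [h3']
      exact h2
    exact this.comp p h5
  refine h6.congr_of_eventuallyEq ?_
  have h7 : ∀ᶠ z : Up in 𝓝 ⟨p, hp⟩, pr GG z ∈ (chartAt C2 x).source :=
    (continuous_pr GG).continuousAt.eventually_mem
      ((chartAt C2 x).open_source.mem_nhds (mem_chart_source C2 x))
  have h8 : ∀ᶠ z in 𝓝 p, ∀ hz : z ∈ Up, pr GG ⟨z, hz⟩ ∈ (chartAt C2 x).source := by
    rw [← map_nhds_subtype_coe_eq_nhds (p := fun q : C2 => q ∈ Up) hp (Up.isOpen.mem_nhds hp),
      eventually_map]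
    filter_upwards [h7] with z hz hz'
    exact hz
  filter_upwards [h4, h8, Up.isOpen.mem_nhds hp] with z hz1 hz2 hz3
  rw [pull_eq u hz3]
  simp only [Function.comp_apply]
  rw [← hz1 hz3, (chartAt C2 x).left_inv (hz2 hz3)]

/-- invariance of the Levi form. -/
theorem invQ_levi {f : C2 → ℝ} (hf : ∀ p ∈ Up, ContDiffAt ℝ ∞ f p) (hi : InvF f) :
    InvQ (leviForm f) := by
  intro g hg h hh p hp v
  rw [← leviForm_comp (contDiffAt_act g h hp) (hf _ (act_mem g h hp))]
  apply leviForm_congr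
  filter_upwards [Up.isOpen.mem_nhds hp] with q hq using hi g hg h hh q hq

theorem Qf_dg {z : ℂ} (hz : z ∈ VV) (v : C2) :
    Qf e0 (dg z) v = w1 (dg z) v - w2 (dg z) v + 2 / e0 * mm (dg z) v := by
  have h0 : uq 1 (dg z) = 0 := by
    unfold uq
    rw [act_one]
    simp [uu, dg]
  have h1 : uq 1 (dg z) < k0 := by
    rw [h0]
    exact e0_pos.trans e0_lt_k0
  have h2 : mq 1 (dg z) v = mm (dg z) v := by
    unfold mq
    rw [act_one, fderiv_act 1 1 (dg_mem hz)]
    congr 1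
    have : jj (1 : SL(2, ℝ)) (dg z).1 = 1 := by simp [jj]
    have h3 : jj (1 : SL(2, ℝ)) (dg z).2 = 1 := by simp [jj]
    rw [this, h3]
    simp
  rw [Qf_near e0_pos (one_mem _) (dg_mem hz) h1, leviForm_pot e0_pos 1 (dg_mem hz), h0, h2,
    zero_div, deriv_SS_of_lt (by norm_num)]
  have h3 : SS 0 = 0 := by
    unfold SS
    rw [TT_zero (by norm_num)]
    ring
  rw [h3]
  ring

/-- **No form in the class is semipositive.** -/
theorem no_semi {θ' : ∀ x : XX, TangentSpace 𝓘(ℂ, C2) x → ℝ}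
    (h : SameClass (dQ (Qf e0)) θ') (hpos : ∀ x v, 0 ≤ θ' x v) : False := by
  obtain ⟨u, hu, hθ⟩ := h
  have hs := contDiffAt_pull hu
  have hi := invF_pull u
  have hL := invQ_levi hs hi
  -- positivity upstairs
  have hup : ∀ p ∈ Up, ∀ v : C2, 0 ≤ Qf e0 p v + leviForm (pull u) p v := by
    intro p hp v
    set x : XX := pr GG ⟨p, hp⟩ with hx
    obtain ⟨γ, hγ, h3, -⟩ := local_pr' (chart_mem_atlas C2 x) ⟨p, hp⟩ (mem_chart_source C2 x)
    have h3' : ex γ p = chartAt C2 x x := h3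
    have e1 : InvQ (Qf e0) := fun _ hg _ hh _ hp v => Qf_act e0 hg hh hp v
    rw [← e1.ex hγ hp v, ← hL.ex hγ hp v, h3']
    have h4 : 0 ≤ dQ (Qf e0) x (fderiv ℂ (ex γ) p v) + levi u x (fderiv ℂ (ex γ) p v) := by
      have h6 := hpos x (fderiv ℂ (ex γ) p v)
      exact h6.trans_eq (hθ x _)
    have h5 : levi u x (fderiv ℂ (ex γ) p v) =
        leviForm (pull u) (chartAt C2 x x) (fderiv ℂ (ex γ) p v) := by
      conv_lhs => rw [← dF_pull u]
      exact levi_dF hi x _
    rw [h5] at h4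
    exact h4
  refine obstruction hs hi (2 / e0) fun z hz v => ?_
  rw [← Qf_dg hz]
  exact hup _ (dg_mem hz) v

end Pool.Agent.N514.NB
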