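import Pool.Agent.N514.NB.UU

/-!
# The profile functions
-/

set_option autoImplicit false

open scoped Manifold ContDiff Topology ComplexConjugate
open Set Filter

namespace Pool.Agent.N514.NB

/-- a cutoff: `0` for `t ≤ 1/2`, `1` for `t ≥ 1`. -/
noncomputable def TT (t : ℝ) : ℝ := Real.smoothTransition (2 * t - 1)

theorem contDiff_TT : ContDiff ℝ ∞ TT :=
  Real.smoothTransition.contDiff.comp (by fun_prop)

theorem TT_mono : Monotone TT := fun s t h => Real.smoothTransition.monotone (by linarith)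

theorem TT_zero {t : ℝ} (h : t ≤ 1 / 2) : TT t = 0 :=
  Real.smoothTransition.zero_of_nonpos (by linarith)

theorem TT_one {t : ℝ} (h : 1 ≤ t) : TT t = 1 :=
  Real.smoothTransition.one_of_one_le (by linarith)

theorem TT_le_one (t : ℝ) : TT t ≤ 1 := Real.smoothTransition.le_one _

theorem TT_nonneg (t : ℝ) : 0 ≤ TT t := Real.smoothTransition.nonneg _

/-- `kp t = S t / t`, where `S t = t + (1 - t) T t`. -/
noncomputable def kp (t : ℝ) : ℝ := 1 + (1 - t) * (TT t / t)

/-- `S t = t + (1 - t) T t`. -/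
noncomputable def SS (t : ℝ) : ℝ := t + (1 - t) * TT t

theorem mul_kp (t : ℝ) : t * kp t = SS t := by
  unfold kp SS
  rcases eq_or_ne t 0 with rfl | h
  · simp [TT_zero]
  · field_simp

theorem contDiff_kp : ContDiff ℝ ∞ kp := by
  rw [contDiff_iff_contDiffAt]
  intro t
  have h1 : ContDiffAt ℝ ∞ (fun t : ℝ => TT t / t) t := by
    rcases lt_or_ge t (1 / 2) with h | h
    · have : (fun t : ℝ => TT t / t) =ᶠ[𝓝 t] fun _ => 0 := by
        filter_upwards [Iio_mem_nhds h] with s hs
        rw [TT_zero (le_of_lt hs), zero_div]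
      exact contDiffAt_const.congr_of_eventuallyEq this
    · exact contDiff_TT.contDiffAt.div contDiffAt_id (by
        have : (0 : ℝ) < t := by linarith
        exact this.ne')
  exact contDiffAt_const.add ((contDiffAt_const.sub contDiffAt_id).mul h1)

theorem kp_of_one_le {t : ℝ} (h : 1 ≤ t) : kp t = t⁻¹ := by
  unfold kp
  rw [TT_one h]
  have : t ≠ 0 := by linarith
  field_simp
  ring

/-- a primitive of `kp`, equal to `log` on `[1, ∞)`. -/
noncomputable def Ph (t : ℝ) : ℝ := ∫ s in (1 : ℝ)..t, kp s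

theorem hasDerivAt_Ph (t : ℝ) : HasDerivAt Ph (kp t) t :=
  intervalIntegral.integral_hasDerivAt_right (contDiff_kp.continuous.intervalIntegrable _ _)
    (contDiff_kp.continuous.stronglyMeasurableAtFilter _ _) contDiff_kp.continuous.continuousAt

theorem deriv_Ph : deriv Ph = kp := funext fun t => (hasDerivAt_Ph t).deriv

theorem contDiff_Ph : ContDiff ℝ ∞ Ph := by
  rw [contDiff_infty_iff_deriv, deriv_Ph]
  exact ⟨fun t => (hasDerivAt_Ph t).differentiableAt, contDiff_kp⟩

theorem Ph_of_one_le {t : ℝ} (h : 1 ≤ t) : Ph t = Real.log t := by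
  unfold Ph
  have h1 : ∫ s in (1 : ℝ)..t, kp s = ∫ s in (1 : ℝ)..t, s⁻¹ := by
    apply intervalIntegral.integral_congr
    intro s hs
    rw [uIcc_of_le h] at hs
    exact kp_of_one_le hs.1
  rw [h1, integral_inv_of_pos one_pos (by linarith), div_one]

theorem contDiff_SS : ContDiff ℝ ∞ SS :=
  contDiff_id.add ((contDiff_const.sub contDiff_id).mul contDiff_TT)

theorem deriv_SS (t : ℝ) : deriv SS t = 1 - TT t + (1 - t) * deriv TT t := by
  have h1 : HasDerivAt TT (deriv TT t) t :=
    (contDiff_TT.differentiable (by simp)).differentiableAt.hasDerivAt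
  have h2 : HasDerivAt SS (1 + ((0 - 1) * TT t + (1 - t) * deriv TT t)) t :=
    (hasDerivAt_id t).add ((((hasDerivAt_const t (1 : ℝ)).sub (hasDerivAt_id t))).mul h1)
  rw [h2.deriv]
  ring

theorem deriv_TT_nonneg (t : ℝ) : 0 ≤ deriv TT t := TT_mono.deriv_nonneg

theorem deriv_TT_of_one_lt {t : ℝ} (h : 1 < t) : deriv TT t = 0 := by
  have : TT =ᶠ[𝓝 t] fun _ => 1 := by
    filter_upwards [Ioi_mem_nhds h] with s hs using TT_one (le_of_lt hs)
  rw [this.deriv_eq]
  simp

theorem deriv_TT_of_lt {t : ℝ} (h : t < 1 / 2) : deriv TT t = 0 := by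
  have : TT =ᶠ[𝓝 t] fun _ => 0 := by
    filter_upwards [Iio_mem_nhds h] with s hs using TT_zero (le_of_lt hs)
  rw [this.deriv_eq]
  simp

theorem deriv_SS_nonneg (t : ℝ) : 0 ≤ deriv SS t := by
  rw [deriv_SS]
  have h1 := TT_le_one t
  rcases le_or_gt t 1 with h | h
  · have := mul_nonneg (sub_nonneg.2 h) (deriv_TT_nonneg t)
    linarith
  · rw [deriv_TT_of_one_lt h, TT_one h.le]
    simp

theorem deriv_SS_of_one_lt {t : ℝ} (h : 1 < t) : deriv SS t = 0 := by
  rw [deriv_SS, deriv_TT_of_one_lt h, TT_one h.le]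
  simp

theorem deriv_SS_of_lt {t : ℝ} (h : t < 1 / 2) : deriv SS t = 1 := by
  rw [deriv_SS, deriv_TT_of_lt h, TT_zero h.le]
  simp

theorem SS_of_one_le {t : ℝ} (h : 1 ≤ t) : SS t = 1 := by
  unfold SS
  rw [TT_one h]
  ring

theorem SS_nonneg {t : ℝ} (h : 0 ≤ t) : 0 ≤ SS t := by
  rcases le_or_gt t 1 with h1 | h1
  · unfold SS
    have := mul_nonneg (sub_nonneg.2 h1) (TT_nonneg t)
    linarith
  · rw [SS_of_one_le h1.le]
    exact zero_le_one

theorem half_le_SS {t : ℝ} (h : 1 / 2 ≤ t) : 1 / 2 ≤ SS t := by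
  rcases le_or_gt t 1 with h1 | h1
  · unfold SS
    have := mul_nonneg (sub_nonneg.2 h1) (TT_nonneg t)
    linarith
  · rw [SS_of_one_le h1.le]
    norm_num

/-- The function `F_η`: smooth, equal to `2 log t` for `t ≥ η`. -/
noncomputable def FF (η t : ℝ) : ℝ := 2 * (Ph (t / η) + Real.log η)

theorem contDiff_FF (η : ℝ) : ContDiff ℝ ∞ (FF η) :=
  contDiff_const.mul ((contDiff_Ph.comp (contDiff_id.div_const η)).add contDiff_const)

theorem FF_of_le {η t : ℝ} (hη : 0 < η) (h : η ≤ t) : FF η t = 2 * Real.log t := by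
  unfold FF
  have h1 : 1 ≤ t / η := by rwa [one_le_div hη]
  have h2 : 0 < t := lt_of_lt_of_le hη h
  rw [Ph_of_one_le h1, Real.log_div h2.ne' hη.ne']
  ring

theorem deriv_FF (η t : ℝ) : deriv (FF η) t = 2 * kp (t / η) / η := by
  have h1 : HasDerivAt (fun t : ℝ => t / η) (1 / η) t := (hasDerivAt_id t).div_const η
  have h2 : HasDerivAt (fun t : ℝ => Ph (t / η)) (kp (t / η) * (1 / η)) t :=
    HasDerivAt.comp (h₂ := Ph) (h := fun t : ℝ => t / η) t (hasDerivAt_Ph (t / η)) h1
  have h3 : HasDerivAt (FF η) (2 * (kp (t / η) * (1 / η))) t := (h2.add_const _).const_mul 2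
  rw [h3.deriv]
  ring

/-- `g = t F'`. -/
theorem mul_deriv_FF {η : ℝ} (hη : 0 < η) (t : ℝ) : t * deriv (FF η) t = 2 * SS (t / η) := by
  rw [deriv_FF, ← mul_kp]
  field_simp

/-- `g' = F' + t F''`. -/
theorem deriv_FF_add {η : ℝ} (hη : 0 < η) (t : ℝ) :
    deriv (FF η) t + t * deriv (deriv (FF η)) t = 2 * deriv SS (t / η) / η := by
  have h1 : HasDerivAt (fun t : ℝ => t / η) (1 / η) t := (hasDerivAt_id t).div_const η
  have hS : HasDerivAt SS (deriv SS (t / η)) (t / η) :=
    (contDiff_SS.differentiable (by simp)).differentiableAt.hasDerivAt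
  have h2 : HasDerivAt (fun t : ℝ => 2 * SS (t / η)) (2 * (deriv SS (t / η) * (1 / η))) t :=
    (HasDerivAt.comp (h₂ := SS) (h := fun t : ℝ => t / η) t hS h1).const_mul 2
  have hd : Differentiable ℝ (deriv (FF η)) := by
    have : ContDiff ℝ ∞ (deriv (FF η)) := (contDiff_infty_iff_deriv.1 (contDiff_FF η)).2
    exact this.differentiable (by simp)
  have h3 : HasDerivAt (fun t : ℝ => t * deriv (FF η) t)
      (1 * deriv (FF η) t + t * deriv (deriv (FF η)) t) t :=
    (hasDerivAt_id t).mul hd.differentiableAt.hasDerivAt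
  have h4 : (fun t : ℝ => t * deriv (FF η) t) = fun t : ℝ => 2 * SS (t / η) :=
    funext fun t => mul_deriv_FF hη t
  rw [h4] at h3
  have := h3.unique h2
  rw [one_mul] at this
  rw [this]
  ring

/-- The value `c` and the function `g`, `P` satisfy the inequality which gives positivity. -/
theorem key_ineq {η ε t : ℝ} (hη : 0 < η) (hε : 0 < ε) (hηε : η ≤ 4 * ε) (ht : 0 ≤ t) :
    1 ≤ (2 * SS (t / η) + ε) * (2 * SS (t / η) + ε + 2 * (2 * deriv SS (t / η) / η)) := by
  have hs : 0 ≤ t / η := div_nonneg ht hη.le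
  have h1 := SS_nonneg hs
  have h2 := deriv_SS_nonneg (t / η)
  rcases lt_or_ge (t / η) (1 / 2) with h | h
  · rw [deriv_SS_of_lt h]
    have h3 : 1 / ε ≤ 2 * (2 * 1 / η) := by
      rw [div_le_iff₀ hε]
      have : 2 * (2 * 1 / η) * ε = 4 * ε / η := by ring
      rw [this, le_div_iff₀ hη]
      linarith
    have h4 : ε * (1 / ε) = 1 := by field_simp
    calc (1 : ℝ) = ε * (1 / ε) := h4.symm
      _ ≤ (2 * SS (t / η) + ε) * (2 * SS (t / η) + ε + 2 * (2 * 1 / η)) := by
        apply mul_le_mul <;> nlinarith [one_div_pos.2 hε]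
  · have h3 := half_le_SS h
    have h4 : 0 ≤ 2 * (2 * deriv SS (t / η) / η) := by positivity
    nlinarith

/-- **Positivity.** -/
theorem pos_form {p : C2} (hp : p ∈ Up) (v : C2) {G P : ℝ} (hG : 0 < G) (hP : 0 ≤ P)
    (h : 1 ≤ G * (G + 2 * P)) :
    0 ≤ (w1 p v - w2 p v) + G * (w1 p v + w2 p v) + P * mm p v := by
  have h1 : 0 < p.1.im := (mem_Up.1 hp).1
  have h2 : 0 < p.2.im := (mem_Up.1 hp).2
  set A : ℂ := (p.2 - conj p.1) * v.1 / p.1.im with hA
  set B : ℂ := (p.1 - conj p.2) * v.2 / p.2.im with hB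
  set K : ℝ := 4 * p.1.im * p.2.im with hK
  have hK0 : 0 < K := by positivity
  have hu := uu_nonneg hp
  have hm : mm p v = Complex.normSq (A - B) / K := rfl
  have e1 : (uu p + 1) * w1 p v = Complex.normSq A / K := by
    rw [hA, hK, uu, w1, Complex.normSq_div, Complex.normSq_mul]
    simp only [Complex.normSq_apply, Complex.sub_re, Complex.sub_im, Complex.conj_re,
      Complex.conj_im, Complex.ofReal_re, Complex.ofReal_im]
    field_simp
    ring
  have e2 : (uu p + 1) * w2 p v = Complex.normSq B / K := by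
    rw [hB, hK, uu, w2, Complex.normSq_div, Complex.normSq_mul]
    simp only [Complex.normSq_apply, Complex.sub_re, Complex.sub_im, Complex.conj_re,
      Complex.conj_im, Complex.ofReal_re, Complex.ofReal_im]
    field_simp
    ring
  set s : ℝ := ‖A - B‖ with hs
  set t : ℝ := ‖A + B‖ with ht
  have hs0 : 0 ≤ s := norm_nonneg _
  have ht0 : 0 ≤ t := norm_nonneg _
  have e3 : Complex.normSq (A - B) = s ^ 2 := by rw [hs, Complex.normSq_eq_norm_sq]
  have e4 : Complex.normSq A + Complex.normSq B = (s ^ 2 + t ^ 2) / 2 := by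
    rw [← e3, ht, ← Complex.normSq_eq_norm_sq, Complex.normSq_add, Complex.normSq_sub]
    ring
  have e5 : -(s * t) ≤ Complex.normSq A - Complex.normSq B := by
    have : Complex.normSq A - Complex.normSq B = ((A - B) * conj (A + B)).re := by
      simp only [Complex.normSq_apply, map_add, Complex.mul_re, Complex.sub_re, Complex.sub_im,
        Complex.add_re, Complex.add_im, Complex.conj_re, Complex.conj_im]
      ring
    rw [this]
    have h3 := Complex.abs_re_le_norm ((A - B) * conj (A + B))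
    rw [norm_mul, Complex.norm_conj] at h3
    have := (abs_le.1 h3).1
    linarith
  have key : 0 ≤ (Complex.normSq A - Complex.normSq B) +
      G * (Complex.normSq A + Complex.normSq B) + (uu p + 1) * P * Complex.normSq (A - B) := by
    rw [e3, e4]
    have h4 : 0 ≤ 2 * G * (-(s * t) + G * ((s ^ 2 + t ^ 2) / 2) + (uu p + 1) * P * s ^ 2) := by
      have : 2 * G * (-(s * t) + G * ((s ^ 2 + t ^ 2) / 2) + (uu p + 1) * P * s ^ 2) =
        (G * t - s) ^ 2 + (G * (G + 2 * P) - 1 + 2 * G * (uu p * P)) * s ^ 2 := by ring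
      rw [this]
      have h5 : 0 ≤ 2 * G * (uu p * P) := by positivity
      have h6 : 0 ≤ (G * (G + 2 * P) - 1 + 2 * G * (uu p * P)) * s ^ 2 :=
        mul_nonneg (by linarith) (sq_nonneg _)
      positivity
    have h7 : 0 ≤ -(s * t) + G * ((s ^ 2 + t ^ 2) / 2) + (uu p + 1) * P * s ^ 2 := by
      by_contra hcon
      push Not at hcon
      have : 2 * G * (-(s * t) + G * ((s ^ 2 + t ^ 2) / 2) + (uu p + 1) * P * s ^ 2) < 0 :=
        mul_neg_of_pos_of_neg (by positivity) hcon
      linarith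
    linarith
  have hfin : 0 ≤ (uu p + 1) * ((w1 p v - w2 p v) + G * (w1 p v + w2 p v) + P * mm p v) := by
    have : (uu p + 1) * ((w1 p v - w2 p v) + G * (w1 p v + w2 p v) + P * mm p v) =
      ((Complex.normSq A - Complex.normSq B) + G * (Complex.normSq A + Complex.normSq B) +
        (uu p + 1) * P * Complex.normSq (A - B)) / K := by
      rw [hm]
      have : (uu p + 1) * ((w1 p v - w2 p v) + G * (w1 p v + w2 p v) +
          P * (Complex.normSq (A - B) / K)) = ((uu p + 1) * w1 p v - (uu p + 1) * w2 p v) +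
          G * ((uu p + 1) * w1 p v + (uu p + 1) * w2 p v) +
          (uu p + 1) * P * (Complex.normSq (A - B) / K) := by ring
      rw [this, e1, e2]
      ring
    rw [this]
    exact div_nonneg key hK0.le
  exact nonneg_of_mul_nonneg_right hfin (by linarith)

end Pool.Agent.N514.NB
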