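import Pool.Agent.N514.NB.Levi

/-!
# The point-pair invariant on `ℍ × ℍ`
-/

set_option autoImplicit false

open scoped Manifold ContDiff Topology ComplexConjugate
open Set Filter

namespace Pool.Agent.N514.NB

/-- The product of two upper half planes. -/
def Up : TopologicalSpace.Opens C2 :=
  ⟨{p | 0 < p.1.im ∧ 0 < p.2.im}, (isOpen_lt continuous_const
    (Complex.continuous_im.comp continuous_fst)).inter
    (isOpen_lt continuous_const (Complex.continuous_im.comp continuous_snd))⟩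

theorem mem_Up {p : C2} : p ∈ Up ↔ 0 < p.1.im ∧ 0 < p.2.im := Iff.rfl

/-- real coordinates, as real linear forms. -/
noncomputable def X1 : C2 →L[ℝ] ℝ := Complex.reCLM.comp (ContinuousLinearMap.fst ℝ ℂ ℂ)
noncomputable def Y1 : C2 →L[ℝ] ℝ := Complex.imCLM.comp (ContinuousLinearMap.fst ℝ ℂ ℂ)
noncomputable def X2 : C2 →L[ℝ] ℝ := Complex.reCLM.comp (ContinuousLinearMap.snd ℝ ℂ ℂ)
noncomputable def Y2 : C2 →L[ℝ] ℝ := Complex.imCLM.comp (ContinuousLinearMap.snd ℝ ℂ ℂ)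

theorem X1_apply (p : C2) : X1 p = p.1.re := rfl
theorem Y1_apply (p : C2) : Y1 p = p.1.im := rfl
theorem X2_apply (p : C2) : X2 p = p.2.re := rfl
theorem Y2_apply (p : C2) : Y2 p = p.2.im := rfl

/-- The hyperbolic forms on the two factors. -/
noncomputable def w1 (p v : C2) : ℝ := Complex.normSq v.1 / p.1.im ^ 2
noncomputable def w2 (p v : C2) : ℝ := Complex.normSq v.2 / p.2.im ^ 2

/-- The invariant `|z - w|² / (4 Im z Im w)`. -/
noncomputable def uu (p : C2) : ℝ := Complex.normSq (p.1 - p.2) / (4 * p.1.im * p.2.im)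

/-- The other invariant quadratic form. -/
noncomputable def mm (p v : C2) : ℝ :=
  Complex.normSq ((p.2 - conj p.1) * v.1 / p.1.im - (p.1 - conj p.2) * v.2 / p.2.im) /
    (4 * p.1.im * p.2.im)

/-- the numerator and the denominator of `uu`. -/
noncomputable def Nu (p : C2) : ℝ := (X1 p - X2 p) ^ 2 + (Y1 p - Y2 p) ^ 2

theorem uu_eq : uu = fun p => ((X1 p - X2 p) ^ 2 + (Y1 p - Y2 p) ^ 2) * (4 * Y1 p * Y2 p)⁻¹ := by
  funext p
  simp only [uu, Complex.normSq_apply, X1_apply, X2_apply, Y1_apply, Y2_apply, Complex.sub_re,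
    Complex.sub_im]
  rw [div_eq_mul_inv]
  ring

theorem contDiffAt_uu {p : C2} (hp : p ∈ Up) : ContDiffAt ℝ ∞ uu p := by
  have h1 : (Y1 p) ≠ 0 := (mem_Up.1 hp).1.ne'
  have h2 : (Y2 p) ≠ 0 := (mem_Up.1 hp).2.ne'
  rw [uu_eq]
  have a1 : ContDiffAt ℝ ∞ (fun p => X1 p) p := X1.contDiff.contDiffAt
  have a2 : ContDiffAt ℝ ∞ (fun p => X2 p) p := X2.contDiff.contDiffAt
  have a3 : ContDiffAt ℝ ∞ (fun p => Y1 p) p := Y1.contDiff.contDiffAt
  have a4 : ContDiffAt ℝ ∞ (fun p => Y2 p) p := Y2.contDiff.contDiffAt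
  have h3 : 4 * Y1 p * Y2 p ≠ 0 := by positivity
  exact (((a1.sub a2).pow 2).add ((a3.sub a4).pow 2)).mul
    (((contDiffAt_const.mul a3).mul a4).inv h3)

theorem contDiffAt_logY1 {p : C2} (hp : p ∈ Up) : ContDiffAt ℝ ∞ (fun p => Real.log (Y1 p)) p :=
  Y1.contDiff.contDiffAt.log (mem_Up.1 hp).1.ne'

theorem contDiffAt_logY2 {p : C2} (hp : p ∈ Up) : ContDiffAt ℝ ∞ (fun p => Real.log (Y2 p)) p :=
  Y2.contDiff.contDiffAt.log (mem_Up.1 hp).2.ne'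

theorem leviForm_log (L : C2 →L[ℝ] ℝ) {p : C2} (hp : 0 < L p) (v : C2) :
    leviForm (fun q => Real.log (L q)) p v = -((L v ^ 2 + L (Complex.I • v) ^ 2) / L p ^ 2) := by
  have hd : ∀ u : C2, fderiv ℝ (fun w => fderiv ℝ (fun q => Real.log (L q)) w u) p u =
      -(L u ^ 2 / L p ^ 2) := by
    intro u
    have e : (fun w => fderiv ℝ (fun q => Real.log (L q)) w u) =ᶠ[𝓝 p] fun w => (L w)⁻¹ * L u := by
      filter_upwards [L.continuous.continuousAt.eventually_ne hp.ne'] with w hw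
      have h1 : HasFDerivAt (fun p => L p) L w := L.hasFDerivAt
      rw [(h1.log hw).fderiv]
      simp
    rw [e.fderiv_eq]
    have h1 : HasFDerivAt (fun p => L p) L p := L.hasFDerivAt
    have h2 : HasFDerivAt (fun p => (L p)⁻¹) _ p := (hasFDerivAt_inv hp.ne').comp p h1
    rw [(h2.mul_const (L u)).fderiv]
    simp
    field_simp
  unfold leviForm
  rw [hd, hd]
  ring

theorem leviForm_logY1 {p : C2} (hp : p ∈ Up) (v : C2) :
    leviForm (fun q => Real.log (Y1 q)) p v = -w1 p v := by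
  rw [leviForm_log Y1 (mem_Up.1 hp).1]
  simp only [w1, Y1_apply, Complex.normSq_apply, Prod.smul_fst, smul_eq_mul, Complex.mul_im,
    Complex.I_re, Complex.I_im]
  ring

theorem leviForm_logY2 {p : C2} (hp : p ∈ Up) (v : C2) :
    leviForm (fun q => Real.log (Y2 q)) p v = -w2 p v := by
  rw [leviForm_log Y2 (mem_Up.1 hp).2]
  simp only [w2, Y2_apply, Complex.normSq_apply, Prod.smul_snd, smul_eq_mul, Complex.mul_im,
    Complex.I_re, Complex.I_im]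
  ring

/-- first directional derivative of `uu`. -/
theorem fderiv_uu {p : C2} (hp : p ∈ Up) (u : C2) : fderiv ℝ uu p u =
    (2 * (X1 p - X2 p) * (X1 u - X2 u) + 2 * (Y1 p - Y2 p) * (Y1 u - Y2 u)) * (4 * Y1 p * Y2 p)⁻¹ -
      ((X1 p - X2 p) ^ 2 + (Y1 p - Y2 p) ^ 2) * (Y1 u * Y2 p + Y1 p * Y2 u) *
        (4 * Y1 p ^ 2 * Y2 p ^ 2)⁻¹ := by
  have h1 : (Y1 p) ≠ 0 := (mem_Up.1 hp).1.ne'
  have h2 : (Y2 p) ≠ 0 := (mem_Up.1 hp).2.ne'
  rw [uu_eq]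
  have a1 : HasFDerivAt (fun p => X1 p) X1 p := X1.hasFDerivAt
  have a2 : HasFDerivAt (fun p => X2 p) X2 p := X2.hasFDerivAt
  have a3 : HasFDerivAt (fun p => Y1 p) Y1 p := Y1.hasFDerivAt
  have a4 : HasFDerivAt (fun p => Y2 p) Y2 p := Y2.hasFDerivAt
  have h3 : 4 * Y1 p * Y2 p ≠ 0 := by positivity
  have a5 : HasFDerivAt (fun p => (4 * Y1 p * Y2 p)⁻¹) _ p :=
    (hasFDerivAt_inv h3).comp p ((a3.const_mul 4).mul a4)
  have a6 : HasFDerivAt (fun p => ((X1 p - X2 p) ^ 2 + (Y1 p - Y2 p) ^ 2) * (4 * Y1 p * Y2 p)⁻¹)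
      _ p := (((a1.sub a2).pow 2).add ((a3.sub a4).pow 2)).mul a5
  rw [a6.fderiv]
  simp
  field_simp
  ring

/-- second directional derivative of `uu`. -/
theorem fderiv_fderiv_uu {p : C2} (hp : p ∈ Up) (u : C2) :
    fderiv ℝ (fun w => fderiv ℝ uu w u) p u =
      (2 * (X1 u - X2 u) ^ 2 + 2 * (Y1 u - Y2 u) ^ 2) * (4 * Y1 p * Y2 p)⁻¹ -
        2 * ((2 * (X1 p - X2 p) * (X1 u - X2 u) + 2 * (Y1 p - Y2 p) * (Y1 u - Y2 u)) *
          (Y1 u * Y2 p + Y1 p * Y2 u)) * (4 * Y1 p ^ 2 * Y2 p ^ 2)⁻¹ +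
        ((X1 p - X2 p) ^ 2 + (Y1 p - Y2 p) ^ 2) *
          (2 * (Y1 u * Y2 p + Y1 p * Y2 u) ^ 2 - 2 * Y1 u * Y2 u * Y1 p * Y2 p) *
            (4 * Y1 p ^ 3 * Y2 p ^ 3)⁻¹ := by
  have h1 : (Y1 p) ≠ 0 := (mem_Up.1 hp).1.ne'
  have h2 : (Y2 p) ≠ 0 := (mem_Up.1 hp).2.ne'
  have e : (fun w => fderiv ℝ uu w u) =ᶠ[𝓝 p] fun p =>
      (2 * (X1 p - X2 p) * (X1 u - X2 u) + 2 * (Y1 p - Y2 p) * (Y1 u - Y2 u)) *
        (4 * Y1 p * Y2 p)⁻¹ -
      ((X1 p - X2 p) ^ 2 + (Y1 p - Y2 p) ^ 2) * (Y1 u * Y2 p + Y1 p * Y2 u) *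
        (4 * Y1 p ^ 2 * Y2 p ^ 2)⁻¹ := by
    filter_upwards [Up.isOpen.mem_nhds hp] with w hw using fderiv_uu hw u
  rw [e.fderiv_eq]
  have a1 : HasFDerivAt (fun p => X1 p) X1 p := X1.hasFDerivAt
  have a2 : HasFDerivAt (fun p => X2 p) X2 p := X2.hasFDerivAt
  have a3 : HasFDerivAt (fun p => Y1 p) Y1 p := Y1.hasFDerivAt
  have a4 : HasFDerivAt (fun p => Y2 p) Y2 p := Y2.hasFDerivAt
  have h3 : 4 * Y1 p * Y2 p ≠ 0 := by positivity
  have h4 : 4 * Y1 p ^ 2 * Y2 p ^ 2 ≠ 0 := by positivity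
  have a5 : HasFDerivAt (fun p => (4 * Y1 p * Y2 p)⁻¹) _ p :=
    (hasFDerivAt_inv h3).comp p ((a3.const_mul 4).mul a4)
  have a6 : HasFDerivAt (fun p => (4 * Y1 p ^ 2 * Y2 p ^ 2)⁻¹) _ p :=
    (hasFDerivAt_inv h4).comp p (((a3.pow 2).const_mul 4).mul (a4.pow 2))
  have a7 : HasFDerivAt (fun p => (2 * (X1 p - X2 p) * (X1 u - X2 u) +
      2 * (Y1 p - Y2 p) * (Y1 u - Y2 u)) * (4 * Y1 p * Y2 p)⁻¹ -
      ((X1 p - X2 p) ^ 2 + (Y1 p - Y2 p) ^ 2) * (Y1 u * Y2 p + Y1 p * Y2 u) *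
        (4 * Y1 p ^ 2 * Y2 p ^ 2)⁻¹) _ p :=
    (((((a1.sub a2).const_mul 2).mul_const (X1 u - X2 u)).add
      (((a3.sub a4).const_mul 2).mul_const (Y1 u - Y2 u))).mul a5).sub
      (((((a1.sub a2).pow 2).add ((a3.sub a4).pow 2)).mul
        ((a4.const_mul (Y1 u)).add (a3.mul_const (Y2 u)))).mul a6)
  rw [a7.fderiv]
  simp
  field_simp
  ring

theorem leviForm_uu {p : C2} (hp : p ∈ Up) (v : C2) :
    leviForm uu p v = uu p * (w1 p v + w2 p v) + mm p v := by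
  have h1 : p.1.im ≠ 0 := (mem_Up.1 hp).1.ne'
  have h2 : p.2.im ≠ 0 := (mem_Up.1 hp).2.ne'
  unfold leviForm
  rw [fderiv_fderiv_uu hp, fderiv_fderiv_uu hp]
  simp only [uu, w1, w2, mm, X1_apply, X2_apply, Y1_apply, Y2_apply, Complex.normSq_apply,
    Prod.smul_fst, Prod.smul_snd, smul_eq_mul, Complex.mul_im, Complex.mul_re, Complex.I_re,
    Complex.I_im, Complex.sub_re, Complex.sub_im, Complex.conj_re, Complex.conj_im,
    Complex.div_ofReal_re, Complex.div_ofReal_im]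
  field_simp
  ring

theorem fderiv_uu_sq {p : C2} (hp : p ∈ Up) (v : C2) :
    fderiv ℝ uu p v ^ 2 + fderiv ℝ uu p (Complex.I • v) ^ 2 = uu p * mm p v := by
  have h1 : p.1.im ≠ 0 := (mem_Up.1 hp).1.ne'
  have h2 : p.2.im ≠ 0 := (mem_Up.1 hp).2.ne'
  rw [fderiv_uu hp, fderiv_uu hp]
  simp only [uu, mm, X1_apply, X2_apply, Y1_apply, Y2_apply, Complex.normSq_apply,
    Prod.smul_fst, Prod.smul_snd, smul_eq_mul, Complex.mul_im, Complex.mul_re, Complex.I_re,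
    Complex.I_im, Complex.sub_re, Complex.sub_im, Complex.conj_re, Complex.conj_im,
    Complex.div_ofReal_re, Complex.div_ofReal_im]
  field_simp
  ring

/-- **The Levi form of a function of `uu`.** -/
theorem leviForm_F {F : ℝ → ℝ} (hF : ContDiff ℝ ∞ F) {p : C2} (hp : p ∈ Up) (v : C2) :
    leviForm (fun q => F (uu q)) p v = uu p * deriv F (uu p) * (w1 p v + w2 p v) +
      (deriv F (uu p) + uu p * deriv (deriv F) (uu p)) * mm p v := by
  rw [leviForm_comp_real (contDiffAt_uu hp) hF.contDiffAt, leviForm_uu hp, fderiv_uu_sq hp]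
  ring

theorem uu_nonneg {p : C2} (hp : p ∈ Up) : 0 ≤ uu p := by
  have h1 : 0 < p.1.im := (mem_Up.1 hp).1
  have h2 : 0 < p.2.im := (mem_Up.1 hp).2
  unfold uu
  have := Complex.normSq_nonneg (p.1 - p.2)
  positivity

theorem w1_nonneg (p v : C2) : 0 ≤ w1 p v := div_nonneg (Complex.normSq_nonneg _) (sq_nonneg _)
theorem w2_nonneg (p v : C2) : 0 ≤ w2 p v := div_nonneg (Complex.normSq_nonneg _) (sq_nonneg _)

theorem mm_nonneg {p : C2} (hp : p ∈ Up) (v : C2) : 0 ≤ mm p v := by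
  have h1 : 0 < p.1.im := (mem_Up.1 hp).1
  have h2 : 0 < p.2.im := (mem_Up.1 hp).2
  unfold mm
  exact div_nonneg (Complex.normSq_nonneg _) (by positivity)

end Pool.Agent.N514.NB
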